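import Pool.Agent.H12.CG.LaDef

/-!
PROJECT CG (MP_0d9ad5_pr, notes 2718, 2748), LEMMA A: error (C1).
`gro (w - x) ≤ gro (u - x) gro (w - u)`, `off ≤ tau`, sum over the centres, over `w`, over `u`: three factors
`≤ A L^2` (`K.mom`, `K.tot`). Total `A^3 L^6`.
-/

namespace CG

open H5DF H95LBD MeasureTheory
open scoped ENNReal

variable {d : ℕ}

theorem La_er1 {pm pM a A : ℝ} {P : Par d} (K : KIn d P.p P.L pm pM a A) (S : Finset (V d))
    (x : V d) (Q : Finset (V d)) :
    ∑ o ∈ Q, ∑' w : V d, gro P.L (w - x) * TO P.p S x o w ≤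
      ENNReal.ofReal (A ^ 3 * (P.L : ℝ) ^ 6) := by
  have hA := K.hA
  have e1 : ∀ o w : V d, gro P.L (w - x) * TO P.p S x o w ≤
      ∑' u : V d, (gro P.L (u - x) * tau d P.p (u - x)) * tau d P.p (o - u) *
        (gro P.L (w - u) * tau d P.p (w - u)) := by
    intro o w
    unfold TO
    rw [← ENNReal.tsum_mul_left]
    refine ENNReal.tsum_le_tsum fun u => ?_
    calc gro P.L (w - x) * (off P.p S x u * (tau d P.p (o - u) * tau d P.p (w - u)))
        ≤ (gro P.L (u - x) * gro P.L (w - u)) *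
            (tau d P.p (u - x) * (tau d P.p (o - u) * tau d P.p (w - u))) := by
          gcongr
          · exact gro_tri P.L x u w
          · exact off_le_tau K.h0 K.h1 S x u
      _ = _ := by ring
  have e2 : ∀ o : V d, ∑' w : V d, gro P.L (w - x) * TO P.p S x o w ≤
      ENNReal.ofReal (A * (P.L : ℝ) ^ 2) *
        ∑' u : V d, (gro P.L (u - x) * tau d P.p (u - x)) * tau d P.p (o - u) := by
    intro o
    refine (ENNReal.tsum_le_tsum fun w => e1 o w).trans ?_
    rw [ENNReal.tsum_comm, ← ENNReal.tsum_mul_left]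
    refine ENNReal.tsum_le_tsum fun u => ?_
    rw [ENNReal.tsum_mul_left, mul_comm]
    refine mul_le_mul' ?_ le_rfl
    have h := (Equiv.subRight u).tsum_eq (fun v : V d => gro P.L v * tau d P.p v)
    simp only [Equiv.subRight_apply] at h
    rw [h]
    exact K.mom
  calc ∑ o ∈ Q, ∑' w : V d, gro P.L (w - x) * TO P.p S x o w
      ≤ ∑ o ∈ Q, ENNReal.ofReal (A * (P.L : ℝ) ^ 2) *
        ∑' u : V d, (gro P.L (u - x) * tau d P.p (u - x)) * tau d P.p (o - u) :=
        Finset.sum_le_sum fun o _ => e2 o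
    _ = ENNReal.ofReal (A * (P.L : ℝ) ^ 2) * ∑' u : V d,
          (gro P.L (u - x) * tau d P.p (u - x)) * ∑ o ∈ Q, tau d P.p (o - u) := by
        rw [← Finset.mul_sum, ← Summable.tsum_finsetSum fun _ _ => ENNReal.summable]
        congr 1
        refine tsum_congr fun u => ?_
        rw [Finset.mul_sum]
    _ ≤ ENNReal.ofReal (A * (P.L : ℝ) ^ 2) * ∑' u : V d,
          (gro P.L (u - x) * tau d P.p (u - x)) * ENNReal.ofReal (A * (P.L : ℝ) ^ 2) := by
        gcongr with u
        exact sum_tau K Q u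
    _ ≤ ENNReal.ofReal (A * (P.L : ℝ) ^ 2) * (ENNReal.ofReal (A * (P.L : ℝ) ^ 2) *
          ENNReal.ofReal (A * (P.L : ℝ) ^ 2)) := by
        rw [ENNReal.tsum_mul_right]
        gcongr
        have h := (Equiv.subRight x).tsum_eq (fun v : V d => gro P.L v * tau d P.p v)
        simp only [Equiv.subRight_apply] at h
        rw [h]
        exact K.mom
    _ = _ := by
        rw [← ENNReal.ofReal_mul (by positivity), ← ENNReal.ofReal_mul (by positivity)]
        congr 1
        ring

end CG
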