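import Pool.Agent.H12.CG.LaDef

/-!
PROJECT CG (MP_0d9ad5_pr, notes 2718, 2748), LEMMA A: error (e2).
`∑_o ∑_w fR o w TO x o w = ∑_u off x u ∑_o tau (o - u) ∑_{|w - o| ≥ R} tau (o - w) tau (w - u)`.
`u ∈ Q'`: the sum over all `o` is `∑_{|z| ≥ R} tau z t2 z ≤ A / R` (`tri_tail`). `u ∉ Q'`: `|o - u| ≥ r`, the sum
over `w` is at most `t2 (o - u)`, the sum over `o` at most `∑_{|z| ≥ r} tau z t2 z ≤ A / r`, and
`∑ off x u ≤ A L^2`.
-/

namespace CG

open H5DF H95LBD MeasureTheory
open scoped ENNReal

variable {d : ℕ}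

section K

variable {pm pM a A : ℝ} {P : Par d}

/-- the sum over the centres for `u` near -/
lemma LaEr2_in (K : KIn d P.p P.L pm pM a A) (Q : Finset (V d)) (u : V d) {R : ℕ} (hR : 1 ≤ R) :
    ∑ o ∈ Q, ∑' w : V d, fR P R o w * (tau d P.p (o - u) * tau d P.p (w - u)) ≤
      ENNReal.ofReal (A / R) := by
  have hn := tau_neg (d := d) P.p K.h0 K.h1
  calc ∑ o ∈ Q, ∑' w : V d, fR P R o w * (tau d P.p (o - u) * tau d P.p (w - u))
      ≤ ∑' o : V d, ∑' w : V d, fR P R o w * (tau d P.p (o - u) * tau d P.p (w - u)) :=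
        ENNReal.sum_le_tsum Q
    _ = ∑' o : V d, ∑' z : V d, (if R ≤ nm z then tau d P.p z else 0) *
          (tau d P.p (o - u) * tau d P.p (o + z - u)) := by
        refine tsum_congr fun o => ?_
        rw [← (Equiv.addLeft o).tsum_eq]
        refine tsum_congr fun z => ?_
        rw [Equiv.coe_addLeft]
        unfold fR
        have h1 : o + z - o = z := by abel
        have h2 : o - (o + z) = -z := by abel
        rw [h1, h2, hn]
    _ = ∑' z : V d, (if R ≤ nm z then tau d P.p z else 0) *
          ∑' o : V d, tau d P.p (o - u) * tau d P.p (o + z - u) := by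
        rw [ENNReal.tsum_comm]
        refine tsum_congr fun z => ?_
        rw [ENNReal.tsum_mul_left]
    _ = ∑' z : V d, (if R ≤ nm z then tau d P.p z * t2 d P.p z else 0) := by
        refine tsum_congr fun z => ?_
        have h1 : ∑' o : V d, tau d P.p (o - u) * tau d P.p (o + z - u) = t2 d P.p z := by
          unfold t2
          rw [← (Equiv.subLeft u).tsum_eq]
          refine tsum_congr fun v => ?_
          rw [Equiv.subLeft_apply]
          have h2 : u - v - u = -v := by abel
          have h3 : u - v + z - u = z - v := by abel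
          rw [h2, h3, hn]
        rw [h1]
        split_ifs
        · rfl
        · rw [zero_mul]
    _ ≤ _ := tri_tail K hR

/-- the sum over the centres for `u` far -/
lemma LaEr2_out (K : KIn d P.p P.L pm pM a A) (Q : Finset (V d)) (u : V d) (R : ℕ) {r : ℕ}
    (hr : 1 ≤ r) (h : ∀ o ∈ Q, r ≤ nm (o - u)) :
    ∑ o ∈ Q, ∑' w : V d, fR P R o w * (tau d P.p (o - u) * tau d P.p (w - u)) ≤
      ENNReal.ofReal (A / r) := by
  have hn := tau_neg (d := d) P.p K.h0 K.h1
  calc ∑ o ∈ Q, ∑' w : V d, fR P R o w * (tau d P.p (o - u) * tau d P.p (w - u))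
      ≤ ∑ o ∈ Q, (if r ≤ nm (o - u) then tau d P.p (o - u) * t2 d P.p (o - u) else 0) := by
        refine Finset.sum_le_sum fun o ho => ?_
        rw [if_pos (h o ho), ← t2_conv P.p u o, ← ENNReal.tsum_mul_left]
        refine ENNReal.tsum_le_tsum fun w => ?_
        have h1 : fR P R o w ≤ tau d P.p (o - w) := by
          unfold fR
          split_ifs
          · exact le_rfl
          · exact zero_le
        calc fR P R o w * (tau d P.p (o - u) * tau d P.p (w - u))
            ≤ tau d P.p (o - w) * (tau d P.p (o - u) * tau d P.p (w - u)) := by gcongr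
          _ = _ := by ring
    _ ≤ ∑' o : V d, (if r ≤ nm (o - u) then tau d P.p (o - u) * t2 d P.p (o - u) else 0) :=
        ENNReal.sum_le_tsum Q
    _ = ∑' z : V d, (if r ≤ nm z then tau d P.p z * t2 d P.p z else 0) := by
        have h1 := (Equiv.subRight u).tsum_eq
          (fun z : V d => if r ≤ nm z then tau d P.p z * t2 d P.p z else 0)
        simp only [Equiv.subRight_apply] at h1
        exact h1
    _ ≤ _ := tri_tail K hr

theorem La_er2 (K : KIn d P.p P.L pm pM a A) (S : Finset (V d)) (x : V d) (Q Q' : Finset (V d))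
    (R r : ℕ) (hR : 1 ≤ R) (hr : 1 ≤ r) (h : ∀ o ∈ Q, ∀ u, u ∉ Q' → r ≤ nm (o - u)) :
    ∑ o ∈ Q, ∑' w : V d, fR P R o w * TO P.p S x o w ≤
      ENNReal.ofReal (A / R) * ∑ u ∈ Q', off P.p S x u +
        ENNReal.ofReal (A ^ 2 * (P.L : ℝ) ^ 2 / r) := by
  classical
  have hA := K.hA
  have hr0 : (0 : ℝ) < r := by exact_mod_cast hr
  have e1 : ∑ o ∈ Q, ∑' w : V d, fR P R o w * TO P.p S x o w = ∑' u : V d, off P.p S x u *
      ∑ o ∈ Q, ∑' w : V d, fR P R o w * (tau d P.p (o - u) * tau d P.p (w - u)) := by
    have e2 : ∀ o : V d, ∑' w : V d, fR P R o w * TO P.p S x o w = ∑' u : V d, off P.p S x u *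
        ∑' w : V d, fR P R o w * (tau d P.p (o - u) * tau d P.p (w - u)) := by
      intro o
      unfold TO
      calc ∑' w : V d, fR P R o w * ∑' u : V d, off P.p S x u *
            (tau d P.p (o - u) * tau d P.p (w - u))
          = ∑' w : V d, ∑' u : V d, off P.p S x u *
              (fR P R o w * (tau d P.p (o - u) * tau d P.p (w - u))) := by
            refine tsum_congr fun w => ?_
            rw [← ENNReal.tsum_mul_left]
            refine tsum_congr fun u => ?_
            ring
        _ = _ := by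
            rw [ENNReal.tsum_comm]
            refine tsum_congr fun u => ?_
            rw [ENNReal.tsum_mul_left]
    rw [Finset.sum_congr rfl fun o _ => e2 o,
      ← Summable.tsum_finsetSum fun _ _ => ENNReal.summable]
    refine tsum_congr fun u => ?_
    rw [Finset.mul_sum]
  rw [e1]
  calc ∑' u : V d, off P.p S x u *
        ∑ o ∈ Q, ∑' w : V d, fR P R o w * (tau d P.p (o - u) * tau d P.p (w - u))
      ≤ ∑' u : V d, ((if u ∈ Q' then off P.p S x u * ENNReal.ofReal (A / R) else 0) +
          tau d P.p (u - x) * ENNReal.ofReal (A / r)) := by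
        refine ENNReal.tsum_le_tsum fun u => ?_
        by_cases hu : u ∈ Q'
        · rw [if_pos hu]
          exact (mul_le_mul' le_rfl (LaEr2_in K Q u hR)).trans le_self_add
        · rw [if_neg hu, zero_add]
          exact mul_le_mul' (off_le_tau K.h0 K.h1 S x u)
            (LaEr2_out K Q u R hr fun o ho => h o ho u hu)
    _ = (∑ u ∈ Q', off P.p S x u) * ENNReal.ofReal (A / R) +
          (∑' u : V d, tau d P.p (u - x)) * ENNReal.ofReal (A / r) := by
        rw [ENNReal.tsum_add, ENNReal.tsum_mul_right]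
        congr 1
        rw [tsum_eq_sum (s := Q') fun u hu => if_neg hu, Finset.sum_mul]
        exact Finset.sum_congr rfl fun u hu => if_pos hu
    _ ≤ _ := by
        refine add_le_add (le_of_eq (mul_comm _ _)) ?_
        rw [tau_sum]
        refine (mul_le_mul' K.tot le_rfl).trans (le_of_eq ?_)
        rw [← ENNReal.ofReal_mul (by positivity)]
        congr 1
        field_simp

end K

end CG
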