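import Pool.Agent.H12.CG.LaDef

/-!
PROJECT CG (MP_0d9ad5_pr, notes 2718, 2748), LEMMA A: errors (C3) and (C4).
(gen) for every `f`: `∑_{o ∈ Q} ∑' w, f w TO ≤ A L^2 ∑' w, f w t2 (w - x)`. (C3): `∑' w, FK w t2 (w - x)` is the
same sum with `t4` (`F8`). (C4): `∑' w, F4 w t2 (w - x) ≤ C FK x` (`t2_nb'`).
-/

namespace CG

open H5DF H95LBD MeasureTheory
open scoped ENNReal

variable {d : ℕ}

/-- As `FK`, with `t4`. -/
noncomputable def F8 (P : Par d) : ℕ → List (Ent d) → V d → ℝ≥0∞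
  | _, [], _ => 0
  | k, e :: H, w => ((k : ℝ≥0∞) + 1) ^ 2 * (∑ w' ∈ e.A, t4 d P.p (w - w')) + F8 P (k + 1) H w

section K

variable {pm pM a A : ℝ} {P : Par d}

theorem La_erG (K : KIn d P.p P.L pm pM a A) (S : Finset (V d)) (x : V d) (Q : Finset (V d))
    (f : V d → ℝ≥0∞) : ∑ o ∈ Q, ∑' w : V d, f w * TO P.p S x o w ≤
      ENNReal.ofReal (A * (P.L : ℝ) ^ 2) * ∑' w : V d, f w * t2 d P.p (w - x) := by
  calc ∑ o ∈ Q, ∑' w : V d, f w * TO P.p S x o w
      = ∑' w : V d, ∑ o ∈ Q, f w * TO P.p S x o w :=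
        (Summable.tsum_finsetSum fun _ _ => ENNReal.summable).symm
    _ ≤ ∑' w : V d, ENNReal.ofReal (A * (P.L : ℝ) ^ 2) * (f w * t2 d P.p (w - x)) := by
        refine ENNReal.tsum_le_tsum fun w => ?_
        rw [← Finset.mul_sum]
        have e1 : ∑ o ∈ Q, TO P.p S x o w =
            ∑' u : V d, (off P.p S x u * tau d P.p (w - u)) * ∑ o ∈ Q, tau d P.p (o - u) := by
          unfold TO
          rw [← Summable.tsum_finsetSum fun _ _ => ENNReal.summable]
          refine tsum_congr fun u => ?_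
          rw [Finset.mul_sum]
          refine Finset.sum_congr rfl fun o _ => ?_
          ring
        have e2 : ∑ o ∈ Q, TO P.p S x o w ≤
            t2 d P.p (w - x) * ENNReal.ofReal (A * (P.L : ℝ) ^ 2) := by
          rw [e1]
          refine (ENNReal.tsum_le_tsum fun u => mul_le_mul' (mul_le_mul'
            (off_le_tau K.h0 K.h1 S x u) le_rfl) (sum_tau K Q u)).trans ?_
          rw [ENNReal.tsum_mul_right, t2_conv]
        refine (mul_le_mul' le_rfl e2).trans (le_of_eq ?_)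
        ring
    _ = _ := ENNReal.tsum_mul_left

lemma LaErK_FK (h0 : 0 ≤ P.p) (h1 : P.p ≤ 1) (x : V d) (H : List (Ent d)) (k : ℕ) :
    ∑' w : V d, FK P k H w * t2 d P.p (w - x) = F8 P k H x := by
  induction H generalizing k with
  | nil => simp [FK, F8]
  | cons e H ih =>
    have e1 : ∀ w : V d, FK P k (e :: H) w * t2 d P.p (w - x) =
        ((k : ℝ≥0∞) + 1) ^ 2 * (∑ w' ∈ e.A, t2 d P.p (w - w') * t2 d P.p (x - w)) +
          FK P (k + 1) H w * t2 d P.p (w - x) := by
      intro w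
      rw [FK, add_mul, mul_assoc, Finset.sum_mul, t2_comm h0 h1 w x]
    rw [tsum_congr e1, ENNReal.tsum_add, ENNReal.tsum_mul_left,
      Summable.tsum_finsetSum fun _ _ => ENNReal.summable, ih, F8]
    congr 2
    refine Finset.sum_congr rfl fun w' _ => ?_
    exact t4_conv P.p w' x

theorem La_er3 (K : KIn d P.p P.L pm pM a A) (S : Finset (V d)) (x : V d) (Q : Finset (V d))
    (H : List (Ent d)) : ∑ o ∈ Q, ∑' w : V d, FK P 0 H w * TO P.p S x o w ≤
        ENNReal.ofReal (A * (P.L : ℝ) ^ 2) * F8 P 0 H x := by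
  refine (La_erG K S x Q _).trans (le_of_eq ?_)
  rw [LaErK_FK K.h0 K.h1]

lemma LaErK_sh (K : KIn d P.p P.L pm pM a A) (B : Finset (V d)) (x : V d) (s : Dir d) :
    ∑' w : V d, (if w + step s ∈ B then (1 : ℝ≥0∞) else 0) * t2 d P.p (w - x) ≤
      ENNReal.ofReal (1 / pm) * ∑ w' ∈ B, t2 d P.p (x - w') := by
  have e1 := (Equiv.addRight (step s)).tsum_eq (fun w' : V d =>
    (if w' ∈ B then (1 : ℝ≥0∞) else 0) * t2 d P.p (w' - step s - x))
  simp only [Equiv.coe_addRight, add_sub_cancel_right] at e1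
  refine e1.le.trans ?_
  rw [tsum_eq_sum (s := B), Finset.mul_sum]
  · refine Finset.sum_le_sum fun w' hw' => ?_
    rw [if_pos hw', one_mul, t2_comm K.h0 K.h1 x w']
    have e2 : w' - step s - x = w' - x + step (opp s) := by
      rw [step_opp]
      abel
    rw [e2]
    exact t2_nb' K _ _
  · intro w' hw'
    rw [if_neg hw', zero_mul]

lemma LaErK_F4 (K : KIn d P.p P.L pm pM a A) (x : V d) (H : List (Ent d)) (k : ℕ) :
    ∑' w : V d, F4 k H w * t2 d P.p (w - x) ≤
      ENNReal.ofReal ((Fintype.card (Dir d) : ℝ) * (1 / pm)) * FK P k H x := by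
  have hpm := K.pm0
  induction H generalizing k with
  | nil => simp [F4]
  | cons e H ih =>
    have e1 : ∀ w : V d, F4 k (e :: H) w * t2 d P.p (w - x) =
        ((k : ℝ≥0∞) + 1) ^ 2 * (∑ s : Dir d, (if w + step s ∈ e.A then (1 : ℝ≥0∞) else 0) *
          t2 d P.p (w - x)) + F4 (k + 1) H w * t2 d P.p (w - x) := by
      intro w
      rw [F4, add_mul, mul_assoc, Finset.sum_mul]
    rw [tsum_congr e1, ENNReal.tsum_add, ENNReal.tsum_mul_left,
      Summable.tsum_finsetSum fun _ _ => ENNReal.summable]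
    have e2 : ∑ s : Dir d, ∑' w : V d, (if w + step s ∈ e.A then (1 : ℝ≥0∞) else 0) *
        t2 d P.p (w - x) ≤
        ENNReal.ofReal ((Fintype.card (Dir d) : ℝ) * (1 / pm)) *
          ∑ w' ∈ e.A, t2 d P.p (x - w') := by
      refine (Finset.sum_le_sum fun s _ => LaErK_sh K e.A x s).trans (le_of_eq ?_)
      rw [Finset.sum_const, Finset.card_univ, nsmul_eq_mul,
        ENNReal.ofReal_mul (p := (Fintype.card (Dir d) : ℝ)) (Nat.cast_nonneg _),
        ENNReal.ofReal_natCast, mul_assoc]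
    refine (add_le_add (mul_le_mul' le_rfl e2) (ih (k + 1))).trans (le_of_eq ?_)
    rw [FK]
    ring

theorem La_er4 (K : KIn d P.p P.L pm pM a A) (S : Finset (V d)) (x : V d) (Q : Finset (V d))
    (H : List (Ent d)) : ∑ o ∈ Q, ∑' w : V d, F4 0 H w * TO P.p S x o w ≤
        ENNReal.ofReal (A * ((Fintype.card (Dir d) : ℝ) * (1 / pm)) * (P.L : ℝ) ^ 2) *
          FK P 0 H x := by
  have hA := K.hA
  have hpm := K.pm0
  refine (La_erG K S x Q _).trans ((mul_le_mul' le_rfl (LaErK_F4 K x H 0)).trans (le_of_eq ?_))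
  rw [← mul_assoc, ← ENNReal.ofReal_mul (by positivity)]
  congr 2
  ring

end K

end CG
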