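import Pool.Agent.H12.CG.LaDef
import Pool.Agent.H95.LBD.PathB

/-!
PROJECT CG (MP_0d9ad5_pr, notes 2718, 2748), LEMMA A, CG-LaExt: surgery, second half (deterministic).
PROOF. All edges of the ball are closed, so `shut o R ζ = ζ` and the cluster of `x` off `S` is `B`.
(lat) For `nm (b - o) ≤ R` there is `l : List (Dir d)` with `pend b l = o`, `l.length ≤ d * R`, all points of
`pvs b l` in the ball (induction on `∑ i |b i - o i|`, reduce one coordinate with `b i ≠ o i`).
(exit) If `b ∈ B`, `pend b l = o ∉ B` then `l = l1 ++ s :: l2` with `y = pend b l1 ∈ B` and no point of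
`pvs (y + step s) l2` in `B` (induction on `l`). `o ∉ B` since points of `B` have distance `≥ R ≥ 1`.
`gx`: `B` is disjoint from `S` (`Cn.mem`, `good_notMem`), `x ∈ B`, `y + step s` in the ball, so in the cell
(`hcell`); `gs` for the history `⟨z, x, B, y⟩ :: H`: `occ = B ∪ occ H`, the runway `l2` avoids `B` and `occ H`
(the ball contains no point of `occ H`: `farH`), length `≤ d R ≤ R1`, potential at `o` at most `v0/2 + v0/2`.
-/

namespace CG

open H5DF H95LBD MeasureTheory
open scoped ENNReal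

variable {d : ℕ}

lemma LaExt_step_same (i : Fin d) (c : Bool) :
    (step (i, c) : V d) i = if c then 1 else -1 := by
  unfold step
  rw [Pi.single_eq_same]

lemma LaExt_step_ne {i j : Fin d} (h : j ≠ i) (c : Bool) : (step (i, c) : V d) j = 0 := by
  unfold step
  rw [Pi.single_eq_of_ne h]

lemma LaExt_lat (o : V d) : ∀ (m : ℕ) (b : V d), ∑ i, (b i - o i).natAbs = m →
    ∃ l : List (Dir d), l.length = m ∧ pend b l = o ∧
      ∀ u ∈ pvs b l, ∀ i, (u i - o i).natAbs ≤ (b i - o i).natAbs := by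
  intro m
  induction m with
  | zero =>
    intro b hb
    have hbo : b = o := by
      funext i
      have h1 := (Finset.sum_eq_zero_iff.1 hb) i (Finset.mem_univ i)
      omega
    refine ⟨[], rfl, hbo, ?_⟩
    intro u hu i
    have hu' : u = b := by simpa [pvs] using hu
    rw [hu']
  | succ m ih =>
    intro b hb
    have hex : ∃ i, b i ≠ o i := by
      by_contra hcon
      push Not at hcon
      have : ∑ i, (b i - o i).natAbs = 0 := by
        apply Finset.sum_eq_zero
        intro i _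
        rw [hcon i, sub_self]
        rfl
      omega
    obtain ⟨i, hi⟩ := hex
    have key : ∃ c : Bool, ((b i + if c then 1 else -1) - o i).natAbs + 1 = (b i - o i).natAbs := by
      rcases lt_or_gt_of_ne hi with h1 | h1
      · refine ⟨true, ?_⟩
        rw [if_pos rfl]
        omega
      · refine ⟨false, ?_⟩
        rw [if_neg (by decide)]
        omega
    obtain ⟨c, hc⟩ := key
    have e1 : (b + step (i, c)) i = b i + if c then 1 else -1 := by
      rw [Pi.add_apply, LaExt_step_same]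
    have e2 : ∀ j, j ≠ i → (b + step (i, c)) j = b j := by
      intro j hj
      rw [Pi.add_apply, LaExt_step_ne hj, add_zero]
    have hsum : ∑ j, ((b + step (i, c)) j - o j).natAbs = m := by
      rw [← Finset.add_sum_erase _ _ (Finset.mem_univ i)] at hb ⊢
      have h2 : ∑ j ∈ Finset.univ.erase i, ((b + step (i, c)) j - o j).natAbs =
          ∑ j ∈ Finset.univ.erase i, (b j - o j).natAbs := by
        refine Finset.sum_congr rfl fun j hj => ?_
        rw [e2 j (Finset.ne_of_mem_erase hj)]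
      rw [h2, e1]
      omega
    obtain ⟨l, hl, hp, hv⟩ := ih (b + step (i, c)) hsum
    have hle : ∀ j, ((b + step (i, c)) j - o j).natAbs ≤ (b j - o j).natAbs := by
      intro j
      by_cases hj : j = i
      · subst hj
        rw [e1]
        omega
      · rw [e2 j hj]
    refine ⟨(i, c) :: l, by simp [hl], hp, ?_⟩
    intro u hu j
    simp only [pvs, List.mem_cons] at hu
    rcases hu with rfl | hu
    · exact le_rfl
    · exact (hv u hu j).trans (hle j)

lemma La_lat (R : ℕ) (o b : V d) (h : nm (b - o) ≤ R) :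
    ∃ l : List (Dir d), l.length ≤ d * R ∧ pend b l = o ∧ ∀ u ∈ pvs b l, nm (u - o) ≤ R := by
  obtain ⟨l, hl, hp, hv⟩ := LaExt_lat o _ b rfl
  have h1 : ∀ i, (b i - o i).natAbs ≤ R := fun i => (natAbs_le_nm (b - o) i).trans h
  refine ⟨l, ?_, hp, ?_⟩
  · rw [hl]
    calc ∑ i, (b i - o i).natAbs ≤ ∑ _i : Fin d, R := Finset.sum_le_sum fun i _ => h1 i
      _ = d * R := by simp
  · intro u hu
    rw [nm_le]
    intro i
    exact (hv u hu i).trans (h1 i)

lemma LaExt_exit (B : Set (V d)) (l : List (Dir d)) (b : V d) (hb : ∃ u ∈ pvs b l, u ∈ B)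
    (ho : pend b l ∉ B) :
    ∃ (y : V d) (s : Dir d) (l2 : List (Dir d)), y ∈ B ∧ y ∈ pvs b l ∧ l2.length ≤ l.length ∧
      pend (y + step s) l2 = pend b l ∧ (∀ u ∈ pvs (y + step s) l2, u ∈ pvs b l ∧ u ∉ B) := by
  induction l generalizing b with
  | nil =>
    obtain ⟨u, hu, huB⟩ := hb
    have hu' : u = b := by simpa [pvs] using hu
    rw [hu'] at huB
    exact absurd huB ho
  | cons t l ih =>
    by_cases h : ∃ u ∈ pvs (b + step t) l, u ∈ B
    · obtain ⟨y, s, l2, h1, h2, h3, h4, h5⟩ := ih (b + step t) h ho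
      refine ⟨y, s, l2, h1, List.mem_cons_of_mem _ h2, ?_, h4, ?_⟩
      · rw [List.length_cons]
        omega
      · intro u hu
        exact ⟨List.mem_cons_of_mem _ (h5 u hu).1, (h5 u hu).2⟩
    · push Not at h
      have hbB : b ∈ B := by
        obtain ⟨u, hu, huB⟩ := hb
        simp only [pvs, List.mem_cons] at hu
        rcases hu with rfl | hu
        · exact huB
        · exact absurd huB (h u hu)
      refine ⟨b, t, l, hbB, ?_, ?_, rfl, ?_⟩
      · simp [pvs]
      · rw [List.length_cons]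
        omega
      · intro u hu
        exact ⟨List.mem_cons_of_mem _ hu, h u hu⟩

lemma La_exit (B : Set (V d)) (l : List (Dir d)) (b : V d) (hb : b ∈ B) (ho : pend b l ∉ B) :
    ∃ (y : V d) (s : Dir d) (l2 : List (Dir d)), y ∈ B ∧ y ∈ pvs b l ∧ l2.length ≤ l.length ∧
      pend (y + step s) l2 = pend b l ∧ (∀ u ∈ pvs (y + step s) l2, u ∈ pvs b l ∧ u ∉ B) :=
  LaExt_exit B l b ⟨b, start_mem_pvs b l, hb⟩ ho

lemma LaExt_shut (o : V d) (R : ℕ) (ζ : Cfg d) (hcl : ∀ e ∈ ins (Bx o R), ζ e = false) :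
    shut o R ζ = ζ := by
  funext e
  unfold shut
  by_cases he : e ∈ ins (Bx o R)
  · rw [hcl e he]
    rfl
  · simp [he]

theorem La_ext (P : Par d) (st : St d) (hst : good P st) (v : V d) (hv : v ∈ steps P.i0) (o : V d)
    (R : ℕ) (hR : 1 ≤ R) (hR1 : d * R ≤ P.R1) (hfar : farH P st.H R o)
    (hcell : ∀ y : V d, nm (y - o) ≤ R → y ∈ cell P.L (st.z + (P.L : ℤ) • v)) (ζ : Cfg d)
    (hG : ζ ∈ GE P st.H st.x o R) (hcl : ∀ e ∈ ins (Bx o R), ζ e = false) :
    ζ ∈ EE P st v o R := by
  obtain ⟨B, hB, hgc, ⟨b, hb, hbo⟩, hBR, hpot⟩ := hG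
  rw [LaExt_shut o R ζ hcl] at hB
  have hx : st.x ∉ occ st.H := good_notMem hst
  have hxB : st.x ∈ B := by
    have h1 : st.x ∈ cluster (cut ((occ st.H : Set (V d))ᶜ) ζ) st.x :=
      SimpleGraph.Reachable.refl _
    rw [hB] at h1
    exact_mod_cast h1
  have hdis : Disjoint B (occ st.H) := by
    rw [Finset.disjoint_left]
    intro w hw hwo
    have h1 : w ∈ cluster (cut ((occ st.H : Set (V d))ᶜ) ζ) st.x := by
      rw [hB]
      exact_mod_cast hw
    have h2 : w ∈ ((occ st.H : Set (V d))ᶜ) := Cn.mem h1 (by simpa using hx)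
    exact h2 (by exact_mod_cast hwo)
  have hoB : o ∉ (B : Set (V d)) := by
    intro h
    have h1 := hBR o (by exact_mod_cast h)
    rw [sub_self, nm_zero] at h1
    omega
  obtain ⟨l, hl, hp, hlv⟩ := La_lat R o b hbo
  obtain ⟨y, s, l2, hyB, hyl, hl2, hp2, hlv2⟩ := La_exit (B : Set (V d)) l b (by exact_mod_cast hb)
    (by rw [hp]; exact hoB)
  have hyB' : y ∈ B := by exact_mod_cast hyB
  refine ⟨B, hB, y, hyB', hlv y hyl, s, hv, hxB, hyB', hdis, hgc, ?_, ?_⟩
  · exact hcell _ (hlv _ (hlv2 _ (start_mem_pvs _ _)).1)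
  · refine ⟨l2, ?_, ?_, ?_⟩
    · omega
    · intro u hu
      obtain ⟨h1, h2⟩ := hlv2 u hu
      show u ∉ B ∪ occ st.H
      rw [Finset.mem_union, not_or]
      refine ⟨fun h => h2 (by exact_mod_cast h), fun h => ?_⟩
      have h3 := hfar.1 u h
      have h4 := hlv u h1
      omega
    · rw [hp2, hp]
      show ∑ w ∈ B ∪ occ st.H, tau d P.p (o - w) ≤ P.v0
      rw [Finset.sum_union hdis]
      exact (add_le_add hpot hfar.2).trans (le_of_eq (ENNReal.add_halves _))

end CG
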