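import Pool.Agent.H12.CG.LaDef
import Pool.Agent.H70.CG.Hist

/-!
PROJECT CG (MP_0d9ad5_pr, notes 2718, 2748), LEMMA A: distances to the earlier starts of a good state.
`x` with `z i0 ≤ x i0`: `|x - x_j| ≥ (2 j + 1) L` for the entry number `j` (newest first), so
`dmp (x - x_j) ≤ (j+1)^(-4)`; the sum of the damping over `occ H` is at most `2 b1`.
-/

namespace CG

open H5DF H95LBD MeasureTheory
open scoped ENNReal

variable {d : ℕ}

lemma LaRho_dist {P : Par d} (hL : 1 ≤ P.L) {st : St d} (h : good P st) {x : V d}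
    (hx : st.z P.i0 ≤ x P.i0) (j : ℕ) (hj : j < st.H.length) :
    (2 * j + 1) * P.L ≤ nm (x - (st.H[j]).x) := by
  obtain ⟨h1, _, h3⟩ := good_coord hL h j hj
  have h4 : ((x - (st.H[j]).x) P.i0).natAbs ≤ nm (x - (st.H[j]).x) := nm_le.1 le_rfl _
  refine le_trans ?_ h4
  have h5 : (((2 * j + 1) * P.L : ℕ) : ℤ) ≤ (x - (st.H[j]).x) P.i0 := by
    rw [Pi.sub_apply]
    push_cast
    nlinarith
  omega

lemma LaRho_div {L : ℕ} (hL : 1 ≤ L) {z : V d} {n : ℕ} (h : n * L ≤ nm z) :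
    (n : ℝ) ≤ (nm z : ℝ) / L := by
  have hL0 : (0 : ℝ) < L := by exact_mod_cast hL
  rw [le_div_iff₀ hL0]
  exact_mod_cast h

lemma LaRho_dmp {L : ℕ} (hL : 1 ≤ L) {z : V d} {j : ℕ} (h : (2 * j + 1) * L ≤ nm z) :
    dmp L z ≤ ENNReal.ofReal (1 / ((j : ℝ) + 1) ^ 4) := by
  have h1 := LaRho_div hL h
  push_cast at h1
  unfold dmp
  apply ENNReal.ofReal_le_ofReal
  apply one_div_le_one_div_of_le (by positivity)
  have hj : (0 : ℝ) ≤ j := Nat.cast_nonneg j
  calc ((j : ℝ) + 1) ^ 4 ≤ ((j : ℝ) + 1) ^ 16 := pow_le_pow_right₀ (by linarith) (by norm_num)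
    _ ≤ (1 + (nm z : ℝ) / L) ^ 16 := pow_le_pow_left₀ (by positivity) (by linarith) _

/-- far part of one entry -/
lemma LaRho_ent {P : Par d} (hL : 1 ≤ P.L) {st : St d} (h : good P st) {x : V d}
    (hx : st.z P.i0 ≤ x P.i0) (j : ℕ) (hj : j < st.H.length) :
    ∑ w ∈ (st.H[j]).A, dmp P.L (x - w) ≤ ENNReal.ofReal (1 / ((j : ℝ) + 1) ^ 4) * P.b1 := by
  calc ∑ w ∈ (st.H[j]).A, dmp P.L (x - w)
      ≤ ∑ w ∈ (st.H[j]).A, dmp P.L (x - (st.H[j]).x) * gro P.L (w - (st.H[j]).x) :=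
        Finset.sum_le_sum fun w _ => dmp_gro P.L _ _ _
    _ = dmp P.L (x - (st.H[j]).x) * ∑ w ∈ (st.H[j]).A, gro P.L (w - (st.H[j]).x) := by
        rw [Finset.mul_sum]
    _ ≤ _ := mul_le_mul' (LaRho_dmp hL (LaRho_dist hL h hx j hj))
        (good_C1 h (List.getElem_mem hj))

/-- a near point: (C1) bounds the number of the entry -/
lemma LaRho_near {P : Par d} {Λ : ℝ} (hL : 1 ≤ P.L) (hΛ : 0 ≤ Λ)
    (hb1 : P.b1 = ENNReal.ofReal (Λ * (P.L : ℝ) ^ 4)) {st : St d}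
    (h : good P st) {x w : V d} (hx : st.z P.i0 ≤ x P.i0) (j : ℕ) (hj : j < st.H.length)
    (hw : w ∈ (st.H[j]).A) (hn : nm (x - w) ≤ P.L) :
    (1 + 2 * (j : ℝ)) ^ 16 ≤ Λ * (P.L : ℝ) ^ 4 := by
  have h1 : gro P.L (w - (st.H[j]).x) ≤ P.b1 :=
    (Finset.single_le_sum (f := fun w => gro P.L (w - (st.H[j]).x)) (fun _ _ => zero_le) hw).trans
      (good_C1 h (List.getElem_mem hj))
  rw [hb1] at h1
  unfold gro at h1
  have h2 := (ENNReal.ofReal_le_ofReal_iff (by positivity)).1 h1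
  refine le_trans ?_ h2
  have h3 : 2 * j * P.L ≤ nm (w - (st.H[j]).x) := by
    have h3 := LaRho_dist hL h hx j hj
    have h4 : nm (x - (st.H[j]).x) ≤ nm (x - w) + nm (w - (st.H[j]).x) := nm_tri _ _ _
    have h5 : (2 * j + 1) * P.L = 2 * j * P.L + P.L := by ring
    omega
  have h4 := LaRho_div hL h3
  push_cast at h4
  have hj0 : (0 : ℝ) ≤ j := Nat.cast_nonneg j
  exact pow_le_pow_left₀ (by positivity) (by linarith) _

/-- the damping over the history -/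
lemma LaRho_occ {P : Par d} (hL : 1 ≤ P.L) {st : St d} (h : good P st) {x : V d}
    (hx : st.z P.i0 ≤ x P.i0) : ∑ w ∈ occ st.H, dmp P.L (x - w) ≤ 2 * P.b1 := by
  rw [sum_occ h]
  have h1 : (st.H.map fun e => ∑ w ∈ e.A, dmp P.L (x - w)).sum =
      ∑ j : Fin st.H.length, ∑ w ∈ (st.H[(j : ℕ)]).A, dmp P.L (x - w) := by
    rw [← List.sum_ofFn]
    congr 1
    have h2 := List.ofFn_getElem (xs := st.H)
    conv_lhs => rw [← h2]
    rw [List.map_ofFn]
    rfl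
  rw [h1]
  calc ∑ j : Fin st.H.length, ∑ w ∈ (st.H[(j : ℕ)]).A, dmp P.L (x - w)
      ≤ ∑ j : Fin st.H.length, Hist_q (j : ℕ) * P.b1 := by
        refine Finset.sum_le_sum fun j _ => (LaRho_ent hL h hx j j.2).trans ?_
        refine mul_le_mul' ?_ le_rfl
        unfold Hist_q
        have hj0 : (0 : ℝ) ≤ ((j : ℕ) : ℝ) := Nat.cast_nonneg _
        have e1 : ENNReal.ofReal (1 / (((j : ℕ) : ℝ) + 1) ^ 2) =
            ((((j : ℕ) : ℝ≥0∞) + 1) ^ 2)⁻¹ := by
          rw [one_div, ENNReal.ofReal_inv_of_pos (by positivity),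
            ENNReal.ofReal_pow (by positivity), ENNReal.ofReal_add (by positivity) zero_le_one,
            ENNReal.ofReal_one, ENNReal.ofReal_natCast]
        rw [← e1]
        apply ENNReal.ofReal_le_ofReal
        apply one_div_le_one_div_of_le (by positivity)
        exact pow_le_pow_right₀ (by linarith) (by norm_num)
    _ = (∑ j ∈ Finset.range st.H.length, Hist_q j) * P.b1 := by
        rw [Finset.sum_range fun j => Hist_q j, Finset.sum_mul]
    _ ≤ 2 * P.b1 := mul_le_mul' (Hist_sq _) le_rfl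

end CG
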