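import Pool.Agent.H12.CG.LaExt
import Pool.Agent.H12.CG.LaRho

/-!
PROJECT CG (MP_0d9ad5_pr, notes 2718, 2748), LEMMA A: error (e1), centres near the history.
`V o = ∑_{w ∈ occ H} tau (o - w)`. If `nm (w - o) ≤ R` for some `w ∈ occ H` then `V o ≥ pm^(d R)` (finite
energy); so `¬ farH` implies `V o ≥ th`, and `(if farH then 0 else off) ≤ off * V o / th`. `off ≤ tau (o - x) ≤
A / L^16` (`tau_far`), `∑_{o ∈ cell} V o ≤ C L^2 ∑_w dmp (z' - w)` (`box_tau`) `≤ C L^2 2 b1` (`LaRho_occ`).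
-/

namespace CG

open H5DF H95LBD MeasureTheory
open scoped ENNReal

variable {d : ℕ}

/-- The threshold. -/
noncomputable def LaFar_th (d : ℕ) (v0 pm : ℝ) (R : ℕ) : ℝ := min (v0 / 2) (pm ^ (d * R))

lemma LaFar_th_pos {v0 pm : ℝ} (hv0 : 0 < v0) (hpm : 0 < pm) {R : ℕ} : 0 < LaFar_th d v0 pm R := by
  unfold LaFar_th
  exact lt_min (by positivity) (by positivity)

lemma LaFar_path {p : ℝ} (h0 : 0 ≤ p) (h1 : p ≤ 1) (l : List (Dir d)) (z : V d) :
    ENNReal.ofReal (p ^ l.length) * tau d p (pend z l) ≤ tau d p z := by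
  induction l generalizing z with
  | nil => simp [pend]
  | cons s l ih =>
    have h2 := ih (z + step s)
    have h3 := tau_nb h0 h1 z s
    rw [List.length_cons, pow_succ', ENNReal.ofReal_mul h0, mul_assoc]
    exact (mul_le_mul' le_rfl h2).trans h3

lemma LaFar_tau {p pm : ℝ} (hpm : 0 < pm) (hp : pm ≤ p) (h1 : p ≤ 1) {R : ℕ} {z : V d}
    (h : nm z ≤ R) : ENNReal.ofReal (pm ^ (d * R)) ≤ tau d p z := by
  have h0 : 0 ≤ p := hpm.le.trans hp
  obtain ⟨l, hl, hp2, -⟩ := La_lat R 0 z (by rwa [sub_zero])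
  have h2 := LaFar_path h0 h1 l z
  rw [hp2, tau_zero p h0 h1, mul_one] at h2
  refine le_trans (ENNReal.ofReal_le_ofReal ?_) h2
  calc pm ^ (d * R) ≤ pm ^ l.length := pow_le_pow_of_le_one hpm.le (hp.trans h1) hl
    _ ≤ p ^ l.length := pow_le_pow_left₀ hpm.le hp _

section K

variable {pm pM a A : ℝ} {P : Par d}

lemma LaFar_not (K : KIn d P.p P.L pm pM a A) {v0 : ℝ} (hPv0 : P.v0 = ENNReal.ofReal v0)
    {H : List (Ent d)} {R : ℕ} {o : V d} (h : ¬ farH P H R o) :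
    ENNReal.ofReal (LaFar_th d v0 pm R) ≤ ∑ w ∈ occ H, tau d P.p (o - w) := by
  unfold farH at h
  rw [not_and_or] at h
  rcases h with h | h
  · push Not at h
    obtain ⟨w, hw, hR⟩ := h
    refine le_trans ?_ (Finset.single_le_sum (f := fun w => tau d P.p (o - w))
      (fun _ _ => bot_le) hw)
    rw [nm_sub_comm] at hR
    exact (ENNReal.ofReal_le_ofReal (min_le_right _ _)).trans (LaFar_tau K.pm0 K.ppm K.h1 hR)
  · have h1 := (not_le.1 h).le
    refine le_trans ?_ h1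
    rw [hPv0]
    have h2 : ENNReal.ofReal v0 / 2 = ENNReal.ofReal (v0 / 2) := by
      rw [ENNReal.ofReal_div_of_pos (by norm_num)]
      simp
    rw [h2]
    exact ENNReal.ofReal_le_ofReal (min_le_left _ _)

/-- The constant of `La_far`. -/
noncomputable def LaFar_C (d : ℕ) (A Λ v0 pm : ℝ) (R : ℕ) : ℝ :=
  A * (2 ^ 16 * A) * (2 * Λ) / LaFar_th d v0 pm R

lemma LaFar_C_pos {A Λ v0 pm : ℝ} (hA : 1 ≤ A) (hΛ : 0 < Λ) (hv0 : 0 < v0) (hpm : 0 < pm)
    {R : ℕ} : 0 < LaFar_C d A Λ v0 pm R := by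
  have := LaFar_th_pos (d := d) hv0 hpm (R := R)
  unfold LaFar_C
  positivity

open Classical in
theorem La_far (K : KIn d P.p P.L pm pM a A) {Λ v0 : ℝ} (hΛ : 0 < Λ) (hv0 : 0 < v0) (R : ℕ)
    (hPv0 : P.v0 = ENNReal.ofReal v0) (hb1 : P.b1 = ENNReal.ofReal (Λ * (P.L : ℝ) ^ 4))
    (st : St d) (hst : good P st) (v : V d) (hv : v ∈ steps P.i0) :
    ∑ o ∈ cell P.L (st.z + (P.L : ℤ) • v),
      (if farH P st.H R o then 0 else off P.p (occ st.H) st.x o) ≤
        ENNReal.ofReal (LaFar_C d A Λ v0 pm R) := by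
  have hA := K.hA
  have hL := K.L1
  have hLr : (1 : ℝ) ≤ P.L := by exact_mod_cast hL
  have hL0 : (0 : ℝ) < P.L := by linarith
  have hθ : 0 < LaFar_th d v0 pm R := LaFar_th_pos hv0 K.pm0
  set z' := st.z + (P.L : ℤ) • v with hz'
  set V2 : V d → ℝ≥0∞ := fun o => ∑ w ∈ occ st.H, tau d P.p (o - w) with hV2
  set b : ℝ≥0∞ := ENNReal.ofReal (A / (P.L : ℝ) ^ 16) with hb
  -- the one point function
  have hoff : ∀ o ∈ cell P.L z', off P.p (occ st.H) st.x o ≤ b := by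
    intro o ho
    refine (off_le_tau K.h0 K.h1 _ _ _).trans (tau_far K ?_)
    have h1 := (cell_dist hL hv (good_cell hL hst) ho).1
    omega
  have hθ0 : ENNReal.ofReal (LaFar_th d v0 pm R) ≠ 0 := (ENNReal.ofReal_pos.2 hθ).ne'
  have hθt : ENNReal.ofReal (LaFar_th d v0 pm R) ≠ ⊤ := ENNReal.ofReal_ne_top
  have hterm : ∀ o ∈ cell P.L z', (if farH P st.H R o then 0 else off P.p (occ st.H) st.x o) ≤
      b * ((ENNReal.ofReal (LaFar_th d v0 pm R))⁻¹ * V2 o) := by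
    intro o ho
    split
    · exact bot_le
    · rename_i h
      have h1 : 1 ≤ (ENNReal.ofReal (LaFar_th d v0 pm R))⁻¹ * V2 o := by
        rw [← ENNReal.inv_mul_cancel hθ0 hθt]
        exact mul_le_mul' le_rfl (LaFar_not K hPv0 h)
      calc off P.p (occ st.H) st.x o = off P.p (occ st.H) st.x o * 1 := (mul_one _).symm
        _ ≤ b * ((ENNReal.ofReal (LaFar_th d v0 pm R))⁻¹ * V2 o) := mul_le_mul' (hoff o ho) h1
  -- the sum of the potential over the cell
  have hsum : ∑ o ∈ cell P.L z', V2 o ≤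
      ENNReal.ofReal (2 ^ 16 * A * (P.L : ℝ) ^ 2) * ENNReal.ofReal (2 * (Λ * (P.L : ℝ) ^ 4)) := by
    rw [hV2]
    simp only
    rw [Finset.sum_comm]
    calc ∑ w ∈ occ st.H, ∑ o ∈ cell P.L z', tau d P.p (o - w)
        ≤ ∑ w ∈ occ st.H, ENNReal.ofReal (2 ^ 16 * A * (P.L : ℝ) ^ 2) * dmp P.L (z' - w) := by
          refine Finset.sum_le_sum fun w _ => ?_
          have h1 := box_tau K (cell P.L z') z' w 1 (fun y hy => by
            rw [nm_le]
            intro i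
            have h4 := (mem_cell.1 hy) i
            rw [Pi.sub_apply]
            omega)
          have h2 : (1 + ((1 : ℕ) : ℝ)) = 2 := by norm_num
          rw [h2] at h1
          exact h1
      _ = ENNReal.ofReal (2 ^ 16 * A * (P.L : ℝ) ^ 2) * ∑ w ∈ occ st.H, dmp P.L (z' - w) := by
          rw [Finset.mul_sum]
      _ ≤ _ := by
          refine mul_le_mul' le_rfl ?_
          have hz : st.z P.i0 ≤ z' P.i0 := by
            have hv0' := steps_i0 hv
            rw [hz', Pi.add_apply, Pi.smul_apply, smul_eq_mul, hv0']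
            have : (0 : ℤ) ≤ P.L := Int.natCast_nonneg _
            omega
          refine (LaRho_occ hL hst hz).trans (le_of_eq ?_)
          rw [hb1, ENNReal.ofReal_mul (p := 2) (by norm_num)]
          norm_num
  -- the result
  calc ∑ o ∈ cell P.L z', (if farH P st.H R o then 0 else off P.p (occ st.H) st.x o)
      ≤ ∑ o ∈ cell P.L z', b * ((ENNReal.ofReal (LaFar_th d v0 pm R))⁻¹ * V2 o) :=
        Finset.sum_le_sum hterm
    _ = b * ((ENNReal.ofReal (LaFar_th d v0 pm R))⁻¹ * ∑ o ∈ cell P.L z', V2 o) := by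
        rw [← Finset.mul_sum, ← Finset.mul_sum]
    _ ≤ b * ((ENNReal.ofReal (LaFar_th d v0 pm R))⁻¹ *
          (ENNReal.ofReal (2 ^ 16 * A * (P.L : ℝ) ^ 2) *
            ENNReal.ofReal (2 * (Λ * (P.L : ℝ) ^ 4)))) :=
        mul_le_mul' le_rfl (mul_le_mul' le_rfl hsum)
    _ = ENNReal.ofReal (A / (P.L : ℝ) ^ 16 * ((LaFar_th d v0 pm R)⁻¹ *
          (2 ^ 16 * A * (P.L : ℝ) ^ 2 * (2 * (Λ * (P.L : ℝ) ^ 4))))) := by
        rw [hb, ← ENNReal.ofReal_inv_of_pos hθ, ← ENNReal.ofReal_mul (by positivity),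
          ← ENNReal.ofReal_mul (by positivity), ← ENNReal.ofReal_mul (by positivity)]
    _ ≤ ENNReal.ofReal (LaFar_C d A Λ v0 pm R) := by
        apply ENNReal.ofReal_le_ofReal
        have h1 : (P.L : ℝ) ^ 6 ≤ (P.L : ℝ) ^ 16 := pow_le_pow_right₀ hLr (by norm_num)
        have h2 : 0 < (P.L : ℝ) ^ 16 := by positivity
        have h3 : (P.L : ℝ) ^ 6 / (P.L : ℝ) ^ 16 ≤ 1 := by
          rw [div_le_one h2]
          exact h1
        have h4 : A / (P.L : ℝ) ^ 16 * ((LaFar_th d v0 pm R)⁻¹ *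
            (2 ^ 16 * A * (P.L : ℝ) ^ 2 * (2 * (Λ * (P.L : ℝ) ^ 4)))) =
            LaFar_C d A Λ v0 pm R * ((P.L : ℝ) ^ 6 / (P.L : ℝ) ^ 16) := by
          unfold LaFar_C
          field_simp
        rw [h4]
        exact mul_le_of_le_one_right (LaFar_C_pos hA hΛ hv0 K.pm0).le h3

end K

end CG
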