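import Pool.Agent.H12.CG.LaErK
import Pool.Agent.H12.CG.LaRho

/-!
PROJECT CG (MP_0d9ad5_pr, notes 2718, 2748), LEMMA A: weighted packing. `L = l^4`, `x` with `z i0 ≤ x i0`.
Near points (`nm (x - w) ≤ l`): the entries with a near point have `(j+1)^2 ≤ Λ l^2` (`LaRho_near`), all near
points lie in one ball and the clusters are disjoint: `≤ Λ l^2 A l^4` (`t4`: `Λ l^2 A l^8`). Far points:
`t2 (x - w) ≤ C l^(-16) dmp (x - w)`, `LaRho_ent`, `∑ (j+1)^2 / (j+1)^4 ≤ 2`: `≤ C Λ`.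
-/

namespace CG

open H5DF H95LBD MeasureTheory
open scoped ENNReal

variable {d : ℕ}

/-- The weighted potential for a general kernel `K`. -/
noncomputable def LaHis_F (K : V d → ℝ≥0∞) : ℕ → List (Ent d) → V d → ℝ≥0∞
  | _, [], _ => 0
  | k, e :: H, w => ((k : ℝ≥0∞) + 1) ^ 2 * (∑ w' ∈ e.A, K (w - w')) + LaHis_F K (k + 1) H w

lemma LaHis_FK (P : Par d) (k : ℕ) (H : List (Ent d)) (w : V d) :
    LaHis_F (t2 d P.p) k H w = FK P k H w := by
  induction H generalizing k with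
  | nil => rfl
  | cons e H ih => rw [LaHis_F, FK, ih]

lemma LaHis_F8 (P : Par d) (k : ℕ) (H : List (Ent d)) (w : V d) :
    LaHis_F (t4 d P.p) k H w = F8 P k H w := by
  induction H generalizing k with
  | nil => rfl
  | cons e H ih => rw [LaHis_F, F8, ih]

/-- The bound by entries. -/
lemma LaHis_list (K K1 : V d → ℝ≥0∞) (W B : ℝ≥0∞) (x : V d) (H : List (Ent d)) (k : ℕ)
    (hd : H.Pairwise fun e e' => Disjoint e.A e'.A)
    (h : ∀ (j : ℕ) (hj : j < H.length), (((k + j : ℕ) : ℝ≥0∞) + 1) ^ 2 *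
      (∑ w ∈ (H[j]).A, K (x - w)) ≤ W * (∑ w ∈ (H[j]).A, K1 (x - w)) + Hist_q (k + j) * B) :
    LaHis_F K k H x ≤ W * (∑ w ∈ occ H, K1 (x - w)) +
      (∑ j ∈ Finset.range H.length, Hist_q (k + j)) * B := by
  induction H generalizing k with
  | nil => simp [LaHis_F]
  | cons e H ih =>
    have h0 := h 0 (by simp)
    rw [add_zero, List.getElem_cons_zero] at h0
    rw [List.pairwise_cons] at hd
    have hdis : Disjoint e.A (occ H) := by
      rw [Finset.disjoint_left]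
      intro w hw hw2
      obtain ⟨e', he', hw'⟩ := mem_occ.1 hw2
      exact Finset.disjoint_left.1 (hd.1 e' he') hw hw'
    have h1 := ih (k + 1) hd.2 (fun j hj => by
      have h2 := h (j + 1) (by simpa using hj)
      rw [List.getElem_cons_succ] at h2
      rw [show k + 1 + j = k + (j + 1) by omega]
      exact h2)
    rw [LaHis_F]
    refine (add_le_add h0 h1).trans (le_of_eq ?_)
    have e1 : occ (e :: H) = e.A ∪ occ H := rfl
    rw [e1, Finset.sum_union hdis, List.length_cons, Finset.sum_range_succ', mul_add, add_mul,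
      add_zero]
    have e2 : ∑ j ∈ Finset.range H.length, Hist_q (k + 1 + j) =
        ∑ j ∈ Finset.range H.length, Hist_q (k + (j + 1)) := by
      refine Finset.sum_congr rfl fun j _ => ?_
      rw [show k + 1 + j = k + (j + 1) by omega]
    rw [e2]
    ring

lemma LaHis_wt {Λ : ℝ} (hΛ : 1 ≤ Λ) {L l j : ℕ} (hl : 1 ≤ l) (hL : L = l ^ 4)
    (h : (1 + 2 * (j : ℝ)) ^ 16 ≤ Λ * (L : ℝ) ^ 4) : ((j : ℝ) + 1) ^ 2 ≤ Λ * (l : ℝ) ^ 2 := by
  have hj : (0 : ℝ) ≤ j := Nat.cast_nonneg j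
  have hlr : (1 : ℝ) ≤ l := by exact_mod_cast hl
  have h1 : (((j : ℝ) + 1) ^ 2) ^ 8 ≤ (Λ * (l : ℝ) ^ 2) ^ 8 := by
    calc (((j : ℝ) + 1) ^ 2) ^ 8 = ((j : ℝ) + 1) ^ 16 := by ring
      _ ≤ (1 + 2 * (j : ℝ)) ^ 16 := pow_le_pow_left₀ (by positivity) (by linarith) _
      _ ≤ Λ * (L : ℝ) ^ 4 := h
      _ = Λ * (l : ℝ) ^ 16 := by
          rw [hL]
          push_cast
          ring
      _ ≤ Λ ^ 8 * (l : ℝ) ^ 16 := by
          refine mul_le_mul_of_nonneg_right ?_ (by positivity)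
          exact le_self_pow₀ hΛ (by norm_num)
      _ = (Λ * (l : ℝ) ^ 2) ^ 8 := by ring
  exact le_of_pow_le_pow_left₀ (by norm_num) (by positivity) h1

lemma LaHis_q (j : ℕ) : ENNReal.ofReal (((j : ℝ) + 1) ^ 2) * ENNReal.ofReal (1 / ((j : ℝ) + 1) ^ 4) =
    Hist_q j := by
  rw [← ENNReal.ofReal_mul (by positivity)]
  unfold Hist_q
  have e1 : ENNReal.ofReal (1 / ((j : ℝ) + 1) ^ 2) = (((j : ℝ≥0∞) + 1) ^ 2)⁻¹ := by
    rw [one_div, ENNReal.ofReal_inv_of_pos (by positivity),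
      ENNReal.ofReal_pow (by positivity), ENNReal.ofReal_add (by positivity) zero_le_one,
      ENNReal.ofReal_one, ENNReal.ofReal_natCast]
  rw [← e1]
  congr 1
  field_simp

lemma LaHis_sq (j : ℕ) : ((j : ℝ≥0∞) + 1) ^ 2 = ENNReal.ofReal (((j : ℝ) + 1) ^ 2) := by
  rw [ENNReal.ofReal_pow (by positivity), ENNReal.ofReal_add (by positivity) zero_le_one,
    ENNReal.ofReal_one, ENNReal.ofReal_natCast]

/-- one entry -/
lemma LaHis_ent (K : V d → ℝ≥0∞) {Λ : ℝ} (hΛ : 1 ≤ Λ) {P : Par d} {l : ℕ} (hl : 1 ≤ l)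
    (hL : P.L = l ^ 4) (hb1 : P.b1 = ENNReal.ofReal (Λ * (P.L : ℝ) ^ 4)) {c : ℝ≥0∞}
    (hf : ∀ z : V d, l < nm z → K z ≤ c * dmp P.L z) {st : St d} (hst : good P st) {x : V d}
    (hx : st.z P.i0 ≤ x P.i0) (j : ℕ) (hj : j < st.H.length) :
    ((j : ℝ≥0∞) + 1) ^ 2 * (∑ w ∈ (st.H[j]).A, K (x - w)) ≤
      ENNReal.ofReal (Λ * (l : ℝ) ^ 2) *
        (∑ w ∈ (st.H[j]).A, (if nm (x - w) ≤ l then K (x - w) else 0)) +
      Hist_q j * (c * P.b1) := by
  have hL1 : 1 ≤ P.L := by rw [hL]; exact Nat.one_le_pow _ _ hl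
  have hlL : l ≤ P.L := by
    rw [hL]
    exact Nat.le_self_pow (by norm_num) l
  have h1 : ∑ w ∈ (st.H[j]).A, K (x - w) ≤
      (∑ w ∈ (st.H[j]).A, (if nm (x - w) ≤ l then K (x - w) else 0)) +
      c * ∑ w ∈ (st.H[j]).A, dmp P.L (x - w) := by
    rw [Finset.mul_sum, ← Finset.sum_add_distrib]
    refine Finset.sum_le_sum fun w _ => ?_
    by_cases h : nm (x - w) ≤ l
    · rw [if_pos h]
      exact le_self_add
    · rw [if_neg h, zero_add]
      exact hf _ (not_le.1 h)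
  refine (mul_le_mul' le_rfl h1).trans ?_
  rw [mul_add]
  refine add_le_add ?_ ?_
  · by_cases hn : ∃ w ∈ (st.H[j]).A, nm (x - w) ≤ l
    · obtain ⟨w, hw, hwn⟩ := hn
      refine mul_le_mul' ?_ le_rfl
      rw [LaHis_sq]
      apply ENNReal.ofReal_le_ofReal
      exact LaHis_wt hΛ hl hL (LaRho_near hL1 (by linarith) hb1 hst hx j hj hw (hwn.trans hlL))
    · push Not at hn
      have h2 : ∑ w ∈ (st.H[j]).A, (if nm (x - w) ≤ l then K (x - w) else 0) = 0 := by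
        refine Finset.sum_eq_zero fun w hw => ?_
        rw [if_neg (not_le.2 (hn w hw))]
      rw [h2, mul_zero]
      exact zero_le
  · calc ((j : ℝ≥0∞) + 1) ^ 2 * (c * ∑ w ∈ (st.H[j]).A, dmp P.L (x - w))
        ≤ ((j : ℝ≥0∞) + 1) ^ 2 * (c * (ENNReal.ofReal (1 / ((j : ℝ) + 1) ^ 4) * P.b1)) := by
          gcongr
          exact LaRho_ent hL1 hst hx j hj
      _ = _ := by
          rw [← LaHis_q, LaHis_sq]
          ring

/-- the weighted potential of the history -/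
theorem LaHis_pot (K : V d → ℝ≥0∞) {Λ : ℝ} (hΛ : 1 ≤ Λ) {P : Par d} {l : ℕ} (hl : 1 ≤ l)
    (hL : P.L = l ^ 4) (hb1 : P.b1 = ENNReal.ofReal (Λ * (P.L : ℝ) ^ 4)) {M C : ℝ} (hM : 0 ≤ M)
    (hC : 0 ≤ C) (hball : ∑' z : V d, (if nm z ≤ l then K z else 0) ≤ ENNReal.ofReal M)
    (hf : ∀ z : V d, l < nm z → K z ≤ ENNReal.ofReal (C / (l : ℝ) ^ 16) * dmp P.L z) {st : St d}
    (hst : good P st) {x : V d} (hx : st.z P.i0 ≤ x P.i0) :
    LaHis_F K 0 st.H x ≤ ENNReal.ofReal (Λ * (l : ℝ) ^ 2 * M + 2 * (C * Λ)) := by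
  have hlr : (1 : ℝ) ≤ l := by exact_mod_cast hl
  have hl0 : (0 : ℝ) < l := by linarith
  have h1 := LaHis_list K (fun z => if nm z ≤ l then K z else 0) (ENNReal.ofReal (Λ * (l : ℝ) ^ 2))
    (ENNReal.ofReal (C / (l : ℝ) ^ 16) * P.b1) x st.H 0 (good_disj hst) (fun j hj => by
      rw [zero_add]
      exact LaHis_ent K hΛ hl hL hb1 hf hst hx j hj)
  refine h1.trans ?_
  have h2 : ∑ w ∈ occ st.H, (if nm (x - w) ≤ l then K (x - w) else 0) ≤ ENNReal.ofReal M :=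
    (KerS_fin' (fun z => if nm z ≤ l then K z else 0) (occ st.H) x).trans hball
  have h3 : ∑ j ∈ Finset.range st.H.length, Hist_q (0 + j) ≤ 2 := by
    simp only [zero_add]
    exact Hist_sq _
  have h4 : ENNReal.ofReal (C / (l : ℝ) ^ 16) * P.b1 = ENNReal.ofReal (C * Λ) := by
    rw [hb1, ← ENNReal.ofReal_mul (by positivity)]
    congr 1
    rw [hL]
    push_cast
    field_simp
  rw [h4]
  calc ENNReal.ofReal (Λ * (l : ℝ) ^ 2) *
        (∑ w ∈ occ st.H, (if nm (x - w) ≤ l then K (x - w) else 0)) +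
        (∑ j ∈ Finset.range st.H.length, Hist_q (0 + j)) * ENNReal.ofReal (C * Λ)
      ≤ ENNReal.ofReal (Λ * (l : ℝ) ^ 2) * ENNReal.ofReal M + 2 * ENNReal.ofReal (C * Λ) := by
        gcongr
    _ = _ := by
        rw [← ENNReal.ofReal_mul (by positivity)]
        have e2 : (2 : ℝ≥0∞) = ENNReal.ofReal 2 := by norm_num
        rw [e2, ← ENNReal.ofReal_mul (by norm_num), ← ENNReal.ofReal_add (by positivity)
          (by positivity)]

/-- both potentials -/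
theorem LaHis_main (Λ A η : ℝ) (hΛ : 1 ≤ Λ) (hA : 1 ≤ A) (hη : 0 < η) : ∃ l0 : ℕ,
    ∀ (pm pM a : ℝ) (P : Par d) (l : ℕ), l0 ≤ l → P.L = l ^ 4 →
      P.b1 = ENNReal.ofReal (Λ * (P.L : ℝ) ^ 4) → KIn d P.p P.L pm pM a A →
      ∀ st : St d, good P st → ∀ x : V d, st.z P.i0 ≤ x P.i0 →
      F8 P 0 st.H x ≤ ENNReal.ofReal (η * (P.L : ℝ) ^ 4) ∧
      FK P 0 st.H x ≤ ENNReal.ofReal (η * (P.L : ℝ) ^ 2) := by
  obtain ⟨N, hN⟩ := exists_nat_ge ((Λ * A + 2 * (2 ^ 16 * A * Λ)) / η)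
  refine ⟨N + 1, fun pm pM a P l hl hL hb1 K st hst x hx => ?_⟩
  have hl1 : 1 ≤ l := by omega
  have hlr : (1 : ℝ) ≤ l := by exact_mod_cast hl1
  have hl0 : (0 : ℝ) < l := by linarith
  have hlL : l ≤ P.L := by
    rw [hL]
    exact Nat.le_self_pow (by norm_num) l
  have hNl : (Λ * A + 2 * (2 ^ 16 * A * Λ)) / η ≤ l :=
    hN.trans (by exact_mod_cast (by omega : N ≤ l))
  rw [div_le_iff₀ hη] at hNl
  have hLc : (P.L : ℝ) = (l : ℝ) ^ 4 := by rw [hL]; push_cast; ring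
  have key : ∀ (n m : ℕ), 1 ≤ m → n + 3 ≤ m →
      Λ * (l : ℝ) ^ 2 * (A * (l : ℝ) ^ n) + 2 * (2 ^ 16 * A * Λ) ≤ η * (l : ℝ) ^ m := by
    intro n m hm hnm
    have h1 : (l : ℝ) ^ 2 * (l : ℝ) ^ n ≤ (l : ℝ) ^ (m - 1) := by
      rw [← pow_add]
      exact pow_le_pow_right₀ hlr (by omega)
    have h2 : (1 : ℝ) ≤ (l : ℝ) ^ (m - 1) := one_le_pow₀ hlr
    have h3 : (l : ℝ) ^ m = (l : ℝ) * (l : ℝ) ^ (m - 1) := by
      rw [← pow_succ']
      congr 1
      omega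
    calc Λ * (l : ℝ) ^ 2 * (A * (l : ℝ) ^ n) + 2 * (2 ^ 16 * A * Λ)
        = Λ * A * ((l : ℝ) ^ 2 * (l : ℝ) ^ n) + 2 * (2 ^ 16 * A * Λ) * 1 := by ring
      _ ≤ Λ * A * (l : ℝ) ^ (m - 1) + 2 * (2 ^ 16 * A * Λ) * (l : ℝ) ^ (m - 1) := by gcongr
      _ = (Λ * A + 2 * (2 ^ 16 * A * Λ)) * (l : ℝ) ^ (m - 1) := by ring
      _ ≤ (l * η) * (l : ℝ) ^ (m - 1) := by gcongr
      _ = η * (l : ℝ) ^ m := by rw [h3]; ring
  constructor
  · rw [← LaHis_F8]
    refine (LaHis_pot (t4 d P.p) hΛ hl1 hL hb1 (M := A * (l : ℝ) ^ 8) (C := 2 ^ 16 * A)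
      (by positivity) (by positivity) (K.ball4 l hl1) (fun z hz => t4_damp K hl1 hlL hz)
      hst hx).trans ?_
    apply ENNReal.ofReal_le_ofReal
    refine (key 8 16 (by norm_num) (by norm_num)).trans (le_of_eq ?_)
    rw [hLc]
    ring
  · rw [← LaHis_FK]
    refine (LaHis_pot (t2 d P.p) hΛ hl1 hL hb1 (M := A * (l : ℝ) ^ 4) (C := 2 ^ 16 * A)
      (by positivity) (by positivity) (K.ball2 l hl1) (fun z hz => t2_damp K hl1 hlL hz)
      hst hx).trans ?_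
    apply ENNReal.ofReal_le_ofReal
    refine (key 4 8 (by norm_num) (by norm_num)).trans (le_of_eq ?_)
    rw [hLc]
    ring

end CG
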