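import Pool.Agent.H12.CG.LaDef

/-!
PROJECT CG (MP_0d9ad5_pr, notes 2718, 2748), LEMMA A: the sum of `off` over the cubes.
La_low. `good_gs`: a runway `l` from `x` of length `≤ R1` to `o1 = pend x l` off `occ H` with
`∑_{w ∈ occ H} tau (o1 - w) ≤ v0`. `off_runway`, `off_ge`; `∑_{u ∈ Q} tau (u - o1) ≥ a L^2` (`K.low`),
`∑_{w} tau (w - o1) ∑_{u ∈ Q} tau (u - w) ≤ v0 A L^2 = (a / 2) L^2`.
-/

namespace CG

open H5DF H95LBD MeasureTheory
open scoped ENNReal

variable {d : ℕ}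

lemma LaLow_pend (x : V d) (l : List (Dir d)) : nm (pend x l - x) ≤ l.length := by
  induction l generalizing x with
  | nil => simp [pend, nm_zero]
  | cons s l ih =>
    have h1 := ih (x + step s)
    have h2 := nm_tri (pend (x + step s) l) (x + step s) x
    have h3 : nm (x + step s - x) = 1 := by rw [add_sub_cancel_left, nm_step]
    rw [h3] at h2
    show nm (pend (x + step s) l - x) ≤ _
    rw [List.length_cons]
    omega

section K

variable {pm pM a A : ℝ} {P : Par d}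

lemma LaLow_box (K : KIn d P.p P.L pm pM a A) (c o1 : V d) (h : nm (c - o1) ≤ 4 * P.L) :
    ENNReal.ofReal (a * (P.L : ℝ) ^ 2) ≤ ∑ u ∈ H95LBS.BF c (P.L / 8), tau d P.p (u - o1) := by
  refine (K.low (c - o1) h).trans ?_
  have h1 := (Equiv.subRight o1).tsum_eq
    (fun u : V d => if 8 * nm (u - (c - o1)) ≤ P.L then tau d P.p u else 0)
  simp only [Equiv.subRight_apply] at h1
  rw [← h1, tsum_eq_sum (s := H95LBS.BF c (P.L / 8))]
  · refine Finset.sum_le_sum fun u _ => ?_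
    split_ifs
    · exact le_rfl
    · exact zero_le
  · intro u hu
    rw [H95LBS.mem_BF] at hu
    have h2 : u - o1 - (c - o1) = u - c := by abel
    rw [h2, if_neg (by omega)]

theorem La_low {v0 : ℝ} (K : KIn d P.p P.L pm pM a A) (hv0 : v0 = a / (2 * A)) (hL : 16 ≤ P.L)
    (hR : P.R1 ≤ P.L) (hPv0 : P.v0 = ENNReal.ofReal v0) (st : St d) (hst : good P st) (v : V d)
    (hv : v ∈ steps P.i0) :
    ENNReal.ofReal (pm ^ P.R1 * (a / 2 * (P.L : ℝ) ^ 2)) ≤
      ∑ u ∈ QQ P st v (P.L / 8), off P.p (occ st.H) st.x u := by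
  have hA := K.hA
  have ha := K.a0
  have hpm := K.pm0
  have hLr : (16 : ℝ) ≤ P.L := by exact_mod_cast hL
  have hv0p : 0 < v0 := by rw [hv0]; positivity
  obtain ⟨l, hl1, hl2, hl3⟩ := good_gs hst
  set o1 := pend st.x l with ho1
  set Q := QQ P st v (P.L / 8) with hQ
  have hn : P.L / 8 < P.L / 2 := by omega
  have hdist : nm (ctr P st v - o1) ≤ 4 * P.L := by
    have h0 : ctr P st v ∈ QQ P st v (P.L / 8) := by
      rw [mem_QQ, sub_self, nm_zero]
      omega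
    have h1 := (cell_dist (P := P) (by omega) hv (good_cell (by omega) hst) (QQ_sub hn h0)).2
    have h2 : nm (o1 - st.x) ≤ l.length := LaLow_pend st.x l
    have h3 := nm_tri (ctr P st v) st.x o1
    rw [nm_sub_comm st.x o1] at h3
    omega
  -- first part
  have first : ENNReal.ofReal (a * (P.L : ℝ) ^ 2) ≤ ∑ u ∈ Q, tau d P.p (u - o1) :=
    LaLow_box K _ o1 hdist
  -- second part
  have second : ∑ u ∈ Q, ∑ w ∈ occ st.H, tau d P.p (w - o1) * tau d P.p (u - w) ≤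
      ENNReal.ofReal (a / 2 * (P.L : ℝ) ^ 2) := by
    rw [Finset.sum_comm]
    calc ∑ w ∈ occ st.H, ∑ u ∈ Q, tau d P.p (w - o1) * tau d P.p (u - w)
        = ∑ w ∈ occ st.H, tau d P.p (w - o1) * ∑ u ∈ Q, tau d P.p (u - w) := by
          refine Finset.sum_congr rfl fun w _ => ?_
          rw [Finset.mul_sum]
      _ ≤ ∑ w ∈ occ st.H, tau d P.p (o1 - w) * ENNReal.ofReal (A * (P.L : ℝ) ^ 2) := by
          refine Finset.sum_le_sum fun w _ => ?_
          refine mul_le_mul' (le_of_eq ?_) (sum_tau K Q w)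
          rw [← neg_sub, tau_neg P.p K.h0 K.h1]
      _ = (∑ w ∈ occ st.H, tau d P.p (o1 - w)) * ENNReal.ofReal (A * (P.L : ℝ) ^ 2) := by
          rw [Finset.sum_mul]
      _ ≤ P.v0 * ENNReal.ofReal (A * (P.L : ℝ) ^ 2) := by
          gcongr
      _ = ENNReal.ofReal (a / 2 * (P.L : ℝ) ^ 2) := by
          rw [hPv0, ← ENNReal.ofReal_mul hv0p.le, hv0]
          congr 1
          field_simp
  have key : ENNReal.ofReal (a / 2 * (P.L : ℝ) ^ 2) ≤ ∑ u ∈ Q, off P.p (occ st.H) o1 u := by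
    have h1 : ∑ u ∈ Q, tau d P.p (u - o1) ≤ ∑ u ∈ Q, off P.p (occ st.H) o1 u +
        ∑ u ∈ Q, ∑ w ∈ occ st.H, tau d P.p (w - o1) * tau d P.p (u - w) := by
      rw [← Finset.sum_add_distrib]
      exact Finset.sum_le_sum fun u _ => off_ge K.h0 K.h1 (occ st.H) o1 u
    have h2 : ENNReal.ofReal (a / 2 * (P.L : ℝ) ^ 2) + ENNReal.ofReal (a / 2 * (P.L : ℝ) ^ 2) ≤
        ∑ u ∈ Q, off P.p (occ st.H) o1 u + ENNReal.ofReal (a / 2 * (P.L : ℝ) ^ 2) := by
      rw [← ENNReal.ofReal_add (by positivity) (by positivity)]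
      have e : a / 2 * (P.L : ℝ) ^ 2 + a / 2 * (P.L : ℝ) ^ 2 = a * (P.L : ℝ) ^ 2 := by ring
      rw [e]
      exact first.trans (h1.trans (by gcongr))
    exact (ENNReal.add_le_add_iff_right ENNReal.ofReal_ne_top).1 h2
  have hpl : pm ^ P.R1 ≤ P.p ^ l.length := by
    have hpm1 : pm ≤ 1 := K.ppm.trans K.h1
    calc pm ^ P.R1 ≤ pm ^ l.length := pow_le_pow_of_le_one hpm.le hpm1 hl1
      _ ≤ P.p ^ l.length := pow_le_pow_left₀ hpm.le K.ppm _
  calc ENNReal.ofReal (pm ^ P.R1 * (a / 2 * (P.L : ℝ) ^ 2))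
      = ENNReal.ofReal (pm ^ P.R1) * ENNReal.ofReal (a / 2 * (P.L : ℝ) ^ 2) := by
        rw [ENNReal.ofReal_mul (by positivity)]
    _ ≤ ENNReal.ofReal (P.p ^ l.length) * ∑ u ∈ Q, off P.p (occ st.H) o1 u :=
        mul_le_mul' (ENNReal.ofReal_le_ofReal hpl) key
    _ = ∑ u ∈ Q, ENNReal.ofReal (P.p ^ l.length) * off P.p (occ st.H) o1 u := by rw [Finset.mul_sum]
    _ ≤ _ := Finset.sum_le_sum fun u _ => off_runway K.h0 K.h1 (occ st.H) st.x u l hl2

theorem La_up (K : KIn d P.p P.L pm pM a A) (S : Finset (V d)) (x : V d) (Q : Finset (V d)) :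
    ∑ u ∈ Q, off P.p S x u ≤ ENNReal.ofReal (A * (P.L : ℝ) ^ 2) :=
  (Finset.sum_le_sum fun u _ => off_le_tau K.h0 K.h1 S x u).trans (sum_tau K Q x)

end K

end CG
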