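import Pool.Agent.H12.CG.LaSurg
import Pool.Agent.H12.CG.LaInd
import Pool.Agent.H12.CG.LaCnt
import Pool.Agent.H12.CG.LaMk
import Pool.Agent.H12.CG.LaEr1
import Pool.Agent.H12.CG.LaEr2
import Pool.Agent.H12.CG.LaFar
import Pool.Agent.H12.CG.LaLow
import Pool.Agent.H12.CG.LaHis

/-!
PROJECT CG (MP_0d9ad5_pr, notes 2718, 2748), LEMMA A (assembly).
-/

namespace CG

open H5DF H95LBD MeasureTheory
open scoped ENNReal

variable {d : ℕ}

lemma LaMain_pig (M : ℕ → ℝ≥0∞) (m : ℕ) (c : ℝ≥0∞) (h0 : c ≤ M 0) (hm : M m < 2 ^ m * c) :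
    ∃ i < m, M (i + 1) ≤ 2 * M i := by
  by_contra hcon
  push Not at hcon
  have h : ∀ i ≤ m, 2 ^ i * c ≤ M i := by
    intro i
    induction i with
    | zero => intro _; simpa using h0
    | succ i ih =>
      intro hi
      refine le_trans ?_ (hcon i (by omega)).le
      rw [pow_succ', mul_assoc]
      exact mul_le_mul' le_rfl (ih (by omega))
  exact absurd hm (not_lt.2 (h m le_rfl))

open Classical in
/-- The sum of the probabilities of `GE` over the far centres. -/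
noncomputable def Gs (P : Par d) (st : St d) (R : ℕ) (Q : Finset (V d)) : ℝ≥0∞ :=
  ∑ o ∈ Q, if farH P st.H R o then perc d P.p (GE P st.H st.x o R) else 0

open Classical in
/-- The sum of `off` over the near centres. -/
noncomputable def Ns (P : Par d) (st : St d) (R : ℕ) (Q : Finset (V d)) : ℝ≥0∞ :=
  ∑ o ∈ Q, if farH P st.H R o then 0 else off P.p (occ st.H) st.x o

/-- The sum of the probabilities of an error. -/
noncomputable def Es (P : Par d) (st : St d) (f : V d → V d → ℝ≥0∞) (b : ℝ≥0∞)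
    (Q : Finset (V d)) : ℝ≥0∞ :=
  ∑ o ∈ Q, perc d P.p (Er (occ st.H) st.x o (f o) b)

lemma LaMain_E (P : Par d) (h0 : 0 ≤ P.p) (h1 : P.p ≤ 1) (st : St d) (f : V d → V d → ℝ≥0∞)
    (b : ℝ≥0∞) (Q : Finset (V d)) :
    b * Es P st f b Q ≤ ∑ o ∈ Q, ∑' w : V d, f o w * TO P.p (occ st.H) st.x o w := by
  unfold Es
  rw [Finset.mul_sum]
  exact Finset.sum_le_sum fun o _ => La_mk h0 h1 _ _ _ _ _

lemma LaMain_one (P : Par d) (hb1 : P.b1 ≠ ⊤) (st : St d) (o : V d) (R : ℕ)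
    (hx : R < nm (st.x - o)) :
    off P.p (occ st.H) st.x o ≤ perc d P.p (GE P st.H st.x o R) +
      (perc d P.p (Er (occ st.H) st.x o (fun w => gro P.L (w - st.x)) P.b1) +
      (perc d P.p (Er (occ st.H) st.x o (FK P 0 st.H) P.b3) +
      (perc d P.p (Er (occ st.H) st.x o (F4 0 st.H) P.b4) +
      perc d P.p (Er (occ st.H) st.x o (fR P R o) (P.v0 / 2))))) := by
  have hsub : {ζ : Cfg d | o ∈ cluster (cut ((occ st.H : Set (V d))ᶜ) ζ) st.x} ⊆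
      GE P st.H st.x o R ∪ (Er (occ st.H) st.x o (fun w => gro P.L (w - st.x)) P.b1 ∪
      (Er (occ st.H) st.x o (FK P 0 st.H) P.b3 ∪
      (Er (occ st.H) st.x o (F4 0 st.H) P.b4 ∪
      Er (occ st.H) st.x o (fR P R o) (P.v0 / 2)))) := by
    intro ζ hζ
    by_cases e1 : P.b1 < csum (occ st.H) st.x (fun w => gro P.L (w - st.x)) ζ
    · exact Or.inr (Or.inl ⟨hζ, e1⟩)
    by_cases e3 : P.b3 < csum (occ st.H) st.x (FK P 0 st.H) ζ
    · exact Or.inr (Or.inr (Or.inl ⟨hζ, e3⟩))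
    by_cases e4 : P.b4 < csum (occ st.H) st.x (F4 0 st.H) ζ
    · exact Or.inr (Or.inr (Or.inr (Or.inl ⟨hζ, e4⟩)))
    by_cases e2 : P.v0 / 2 < csum (occ st.H) st.x (fR P R o) ζ
    · exact Or.inr (Or.inr (Or.inr (Or.inr ⟨hζ, e2⟩)))
    · exact Or.inl (La_surg P hb1 st.H st.x o R hx ζ hζ (not_lt.1 e1) (not_lt.1 e3)
        (not_lt.1 e4) (not_lt.1 e2))
  refine (measure_mono hsub).trans ((measure_union_le _ _).trans ?_)
  refine add_le_add le_rfl ((measure_union_le _ _).trans ?_)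
  refine add_le_add le_rfl ((measure_union_le _ _).trans ?_)
  exact add_le_add le_rfl (measure_union_le _ _)

lemma LaMain_sum (P : Par d) (hb1 : P.b1 ≠ ⊤) (st : St d) (R : ℕ)
    (Q : Finset (V d)) (hx : ∀ o ∈ Q, R < nm (st.x - o)) :
    ∑ o ∈ Q, off P.p (occ st.H) st.x o ≤ (Gs P st R Q + Ns P st R Q) +
      (Es P st (fun _ w => gro P.L (w - st.x)) P.b1 Q +
      (Es P st (fun _ => FK P 0 st.H) P.b3 Q +
      (Es P st (fun _ => F4 0 st.H) P.b4 Q + Es P st (fR P R) (P.v0 / 2) Q))) := by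
  unfold Gs Ns Es
  rw [← Finset.sum_add_distrib, ← Finset.sum_add_distrib, ← Finset.sum_add_distrib,
    ← Finset.sum_add_distrib, ← Finset.sum_add_distrib]
  refine Finset.sum_le_sum fun o ho => ?_
  by_cases hf : farH P st.H R o
  · rw [if_pos hf, if_pos hf, add_zero]
    exact LaMain_one P hb1 st o R (hx o ho)
  · rw [if_neg hf, if_neg hf, zero_add]
    exact le_self_add

lemma LaMain_fin (P : Par d) (h0 : 0 ≤ P.p) (h1 : P.p ≤ 1) (st : St d) (hst : good P st) (v : V d)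
    (hv : v ∈ steps P.i0) (R n : ℕ) (hR : 1 ≤ R) (hR1 : d * R ≤ P.R1) (hn : n + R < P.L / 2) :
    ENNReal.ofReal ((1 - P.p) ^ (d * (2 * R + 1) ^ d)) * Gs P st R (QQ P st v n) ≤
      (((2 * R + 1) ^ d : ℕ) : ℝ≥0∞) *
        ∑' B : Finset (V d), cl P.p (occ st.H) st.x B * cnt P st v B := by
  refine le_trans ?_ (La_cnt P st v R (QQ P st v n))
  unfold Gs
  rw [Finset.mul_sum]
  refine Finset.sum_le_sum fun o ho => ?_
  by_cases hf : farH P st.H R o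
  · rw [if_pos hf]
    exact La_ind P h0 h1 st hst v hv o R hR hR1 hf fun y hy => QQ_cell hn ho hy
  · rw [if_neg hf, mul_zero]
    exact zero_le

/-- `b E ≤ B`, `b ≥ ofReal b'` gives `E ≤ ofReal (B' / b')`. -/
lemma LaMain_div {b E : ℝ≥0∞} {b' B' : ℝ} (hb' : 0 < b') (hb : ENNReal.ofReal b' ≤ b)
    (h : b * E ≤ ENNReal.ofReal B') : E ≤ ENNReal.ofReal (B' / b') := by
  have h1 : ENNReal.ofReal b' * E ≤ ENNReal.ofReal B' := (mul_le_mul' hb le_rfl).trans h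
  rw [ENNReal.ofReal_div_of_pos hb', ENNReal.le_div_iff_mul_le]
  · rwa [mul_comm]
  · left
    exact (ENNReal.ofReal_pos.2 hb').ne'
  · left
    exact ENNReal.ofReal_ne_top

/-- The final arithmetic. -/
lemma LaMain_arith {M M' G N E1 E3 E4 E2 : ℝ≥0∞} {X : ℝ} (hX0 : 0 ≤ X)
    (hsum : M ≤ (G + N) + (E1 + (E3 + (E4 + E2)))) (hN : N ≤ ENNReal.ofReal (X / 16))
    (h1 : E1 ≤ ENNReal.ofReal (X / 16)) (h3 : E3 ≤ ENNReal.ofReal (X / 16))
    (h4 : E4 ≤ ENNReal.ofReal (X / 16))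
    (h2 : E2 ≤ ENNReal.ofReal (1 / 16) * (M' + ENNReal.ofReal X)) (hM' : M' ≤ 2 * M)
    (hX : ENNReal.ofReal X ≤ M) (hMt : M ≠ ⊤) : ENNReal.ofReal (X / 2) ≤ G := by
  by_cases hG : G = ⊤
  · rw [hG]
    exact le_top
  obtain ⟨μ, hμ⟩ : ∃ μ : ℝ, μ = M.toReal := ⟨_, rfl⟩
  obtain ⟨g, hg⟩ : ∃ g : ℝ, g = G.toReal := ⟨_, rfl⟩
  have hμ0 : 0 ≤ μ := by rw [hμ]; exact ENNReal.toReal_nonneg
  have hg0 : 0 ≤ g := by rw [hg]; exact ENNReal.toReal_nonneg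
  have eM : M = ENNReal.ofReal μ := by rw [hμ, ENNReal.ofReal_toReal hMt]
  have eG : G = ENNReal.ofReal g := by rw [hg, ENNReal.ofReal_toReal hG]
  have hXμ : X ≤ μ := by
    rw [eM] at hX
    exact (ENNReal.ofReal_le_ofReal_iff hμ0).1 hX
  have h2' : E2 ≤ ENNReal.ofReal ((2 * μ + X) / 16) := by
    refine h2.trans ((mul_le_mul' le_rfl (add_le_add hM' le_rfl)).trans (le_of_eq ?_))
    have e2 : (2 : ℝ≥0∞) = ENNReal.ofReal 2 := by norm_num
    rw [eM, e2, ← ENNReal.ofReal_mul (by norm_num), ← ENNReal.ofReal_add (by positivity) hX0,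
      ← ENNReal.ofReal_mul (by norm_num)]
    congr 1
    ring
  have h5 : ENNReal.ofReal μ ≤ ENNReal.ofReal ((g + X / 16) + (X / 16 + (X / 16 + (X / 16 +
      (2 * μ + X) / 16)))) := by
    rw [ENNReal.ofReal_add (by positivity) (by positivity), ENNReal.ofReal_add hg0 (by positivity),
      ENNReal.ofReal_add (by positivity) (by positivity),
      ENNReal.ofReal_add (by positivity) (by positivity),
      ENNReal.ofReal_add (by positivity) (by positivity), ← eM, ← eG]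
    refine hsum.trans ?_
    gcongr
  have h6 := (ENNReal.ofReal_le_ofReal_iff (by positivity)).1 h5
  rw [eG]
  apply ENNReal.ofReal_le_ofReal
  linarith

/-- From the outer clusters to the extensions. -/
lemma LaMain_last {G T : ℝ≥0∞} {X q q0 : ℝ} {K : ℕ} (hK : 0 < K) (hq0 : 0 ≤ q0) (hq : q0 ≤ q)
    (hG : ENNReal.ofReal (X / 2) ≤ G) (h : ENNReal.ofReal q * G ≤ (K : ℝ≥0∞) * T) :
    ENNReal.ofReal (X / 2 * q0 / K) ≤ T := by
  have h1 : ENNReal.ofReal q0 * ENNReal.ofReal (X / 2) ≤ (K : ℝ≥0∞) * T :=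
    (mul_le_mul' (ENNReal.ofReal_le_ofReal hq) hG).trans h
  rw [← ENNReal.ofReal_mul hq0] at h1
  have hKr : (0 : ℝ) < K := by exact_mod_cast hK
  have h2 : (K : ℝ≥0∞) = ENNReal.ofReal (K : ℝ) := by simp
  rw [ENNReal.ofReal_div_of_pos hKr]
  refine ENNReal.div_le_of_le_mul ?_
  rw [← h2, mul_comm T, mul_comm (X / 2)]
  exact h1

/-- Choice of the surgery radius. -/
lemma LaMain_R (A v0 : ℝ) (hA : 1 ≤ A) (hv0 : 0 < v0) :
    ∃ R : ℕ, 1 ≤ R ∧ A / (R : ℝ) ≤ v0 / 2 * (1 / 16) := by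
  refine ⟨⌈32 * A / v0⌉₊ + 1, by omega, ?_⟩
  have h1 : 32 * A / v0 ≤ (⌈32 * A / v0⌉₊ : ℝ) := Nat.le_ceil _
  set R : ℕ := ⌈32 * A / v0⌉₊ + 1 with hR
  have h2 : 32 * A / v0 ≤ (R : ℝ) := by
    rw [hR]
    push_cast
    linarith
  have h3 : (0 : ℝ) < (R : ℝ) := by
    rw [hR]
    positivity
  rw [div_le_iff₀ hv0] at h2
  rw [div_le_iff₀ h3]
  linarith

/-- cancel a factor -/
lemma LaMain_cancel {v : ℝ} (hv : 0 < v) {E X : ℝ≥0∞}
    (h : ENNReal.ofReal v * E ≤ ENNReal.ofReal (v * (1 / 16)) * X) :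
    E ≤ ENNReal.ofReal (1 / 16) * X := by
  have h0 : ENNReal.ofReal v ≠ 0 := (ENNReal.ofReal_pos.2 hv).ne'
  rw [ENNReal.ofReal_mul hv.le, mul_assoc] at h
  exact (ENNReal.mul_le_mul_iff_right h0 ENNReal.ofReal_ne_top).1 h

lemma LaMain_m (C7 c6 : ℝ) (hc6 : 0 < c6) : ∃ m : ℕ, 1 ≤ m ∧ C7 < 2 ^ m * c6 := by
  obtain ⟨m, hm⟩ := pow_unbounded_of_one_lt (C7 / c6) (by norm_num : (1 : ℝ) < 2)
  refine ⟨m + 1, by omega, ?_⟩
  rw [div_lt_iff₀ hc6] at hm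
  have : (2 : ℝ) ^ m * c6 ≤ 2 ^ (m + 1) * c6 := by
    apply mul_le_mul_of_nonneg_right _ hc6.le
    exact pow_le_pow_right₀ (by norm_num) (by omega)
  linarith

theorem La_main (pm pM a A : ℝ) (hpm : 0 < pm) (hpM : pM < 1) (ha : 0 < a) (hA : 1 ≤ A)
    (hd : 1 ≤ d) : ∃ (v0 Λ c3 : ℝ) (R1 : ℕ), 0 < v0 ∧ 1 ≤ Λ ∧ 0 < c3 ∧
      ∀ β : ℝ, 0 < β → ∃ l0 : ℕ,
      ∀ (P : Par d) (l : ℕ), l0 ≤ l → P.L = l ^ 4 → P.R1 = R1 →
      P.v0 = ENNReal.ofReal v0 →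
      P.b1 = ENNReal.ofReal (Λ * (P.L : ℝ) ^ 4) → ENNReal.ofReal (β * (P.L : ℝ) ^ 4) ≤ P.b3 →
      ENNReal.ofReal (β * (P.L : ℝ) ^ 2) ≤ P.b4 → KIn d P.p P.L pm pM a A →
      ∀ st : St d, good P st → ∀ v ∈ steps P.i0, ENNReal.ofReal (c3 * (P.L : ℝ) ^ 2) ≤
        ∑' B : Finset (V d), cl P.p (occ st.H) st.x B * cnt P st v B := by
  classical
  obtain ⟨v0, hv0d⟩ : ∃ v0 : ℝ, v0 = a / (2 * A) := ⟨_, rfl⟩
  have hv0 : 0 < v0 := by rw [hv0d]; positivity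
  obtain ⟨C4, hC4d⟩ : ∃ C4 : ℝ, C4 = A * ((Fintype.card (Dir d) : ℝ) * (1 / pm)) := ⟨_, rfl⟩
  have hC4 : 0 < C4 := by
    have : 0 < Fintype.card (Dir d) := Fintype.card_pos_iff.2 ⟨(⟨0, by omega⟩, true)⟩
    have h2 : (0 : ℝ) < Fintype.card (Dir d) := by exact_mod_cast this
    rw [hC4d]
    positivity
  obtain ⟨R, hR1, hR2⟩ := LaMain_R A v0 hA hv0
  obtain ⟨c6, hc6d⟩ : ∃ c6 : ℝ, c6 = pm ^ (d * R) * (a / 2) := ⟨_, rfl⟩
  have hc6 : 0 < c6 := by rw [hc6d]; positivity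
  obtain ⟨m, hm1, hm2⟩ := LaMain_m A c6 hc6
  obtain ⟨Λ, hΛd⟩ : ∃ Λ : ℝ, Λ = 16 * A ^ 3 / c6 + 1 := ⟨_, rfl⟩
  have hΛ1 : 1 ≤ Λ := by
    rw [hΛd]
    have : 0 ≤ 16 * A ^ 3 / c6 := by positivity
    linarith
  have hΛ : 0 < Λ := by linarith
  have hK : 0 < (2 * R + 1) ^ d := by positivity
  have hKr : (0 : ℝ) < (((2 * R + 1) ^ d : ℕ) : ℝ) := by exact_mod_cast hK
  have hq0 : 0 < (1 - pM) ^ (d * (2 * R + 1) ^ d) := pow_pos (by linarith) _
  refine ⟨v0, Λ, c6 / 2 * (1 - pM) ^ (d * (2 * R + 1) ^ d) / (((2 * R + 1) ^ d : ℕ) : ℝ), d * R,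
    hv0, hΛ1, by positivity, fun β hβ => ?_⟩
  obtain ⟨Cf, hCfd⟩ : ∃ Cf : ℝ, Cf = LaFar_C d A Λ v0 pm R := ⟨_, rfl⟩
  have hCf : 0 < Cf := by rw [hCfd]; exact LaFar_C_pos hA hΛ hv0 hpm
  obtain ⟨η, hηd⟩ : ∃ η : ℝ, η = β * c6 / (16 * (A + C4)) := ⟨_, rfl⟩
  have hη : 0 < η := by rw [hηd]; positivity
  obtain ⟨l1, hpot⟩ := LaHis_main (d := d) Λ A η hΛ1 hA hη
  obtain ⟨rr, hrrd⟩ : ∃ rr : ℝ, rr = 32 * A ^ 2 / (v0 * c6) + 1 := ⟨_, rfl⟩
  have hrr : 0 < rr := by rw [hrrd]; positivity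
  obtain ⟨Th, hTh⟩ : ∃ Th : ℝ, Th = 16 * ((R : ℝ) + 1) + d * R + 16 * Cf / c6 +
    16 * (m : ℝ) * (rr + 1) := ⟨_, rfl⟩
  refine ⟨max l1 (⌈Th⌉₊ + 1), ?_⟩
  intro P l hl hL hR1P hv0P hb1 hb3 hb4 hkin st hst v hv
  have hl1 : l1 ≤ l := (le_max_left _ _).trans hl
  have hl2 : ⌈Th⌉₊ + 1 ≤ l := (le_max_right _ _).trans hl
  have hlpos : 1 ≤ l := by omega
  have hLl : l ≤ P.L := by
    rw [hL]
    exact Nat.le_self_pow (by norm_num) l
  have hThL : Th ≤ (P.L : ℝ) := by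
    have h1 : Th ≤ (⌈Th⌉₊ : ℝ) := Nat.le_ceil _
    have h2 : (⌈Th⌉₊ : ℝ) ≤ (P.L : ℝ) := by
      exact_mod_cast (by omega : ⌈Th⌉₊ ≤ P.L)
    linarith
  have hA' : (0 : ℝ) ≤ 16 * ((R : ℝ) + 1) := by positivity
  have hB : (0 : ℝ) ≤ (d : ℝ) * R := by positivity
  have hC : (0 : ℝ) ≤ 16 * Cf / c6 := by positivity
  have hD : (0 : ℝ) ≤ 16 * (m : ℝ) * (rr + 1) := by positivity
  have hLR : 16 * (R + 1) ≤ P.L := by
    have : 16 * ((R : ℝ) + 1) ≤ (P.L : ℝ) := by rw [hTh] at hThL; linarith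
    exact_mod_cast this
  have hLdR : d * R ≤ P.L := by
    have : (d : ℝ) * R ≤ (P.L : ℝ) := by rw [hTh] at hThL; linarith
    exact_mod_cast this
  have hLCf : 16 * Cf / c6 ≤ (P.L : ℝ) := by rw [hTh] at hThL; linarith
  have hLm : 16 * (m : ℝ) * (rr + 1) ≤ (P.L : ℝ) := by rw [hTh] at hThL; linarith
  have hL1 : 1 ≤ P.L := by omega
  have hL16 : 16 ≤ P.L := by omega
  have hLr : (1 : ℝ) ≤ (P.L : ℝ) := by exact_mod_cast hL1
  have hL0 : (0 : ℝ) < (P.L : ℝ) := by linarith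
  have hLsq : (P.L : ℝ) ≤ (P.L : ℝ) ^ 2 := by nlinarith
  have hp0 := hkin.h0
  have hp1 := hkin.h1
  have hpmP := hkin.ppm
  have hpMP := hkin.ppM
  have hb1t : P.b1 ≠ ⊤ := by rw [hb1]; exact ENNReal.ofReal_ne_top
  have hxz : st.z P.i0 ≤ st.x P.i0 := (mem_cell.1 (good_cell hL1 hst) P.i0).1
  obtain ⟨hp8, hp4⟩ := hpot pm pM a P l hl1 hL hb1 hkin st hst st.x hxz
  obtain ⟨X, hXd⟩ : ∃ X : ℝ, X = c6 * (P.L : ℝ) ^ 2 := ⟨_, rfl⟩
  have hX0 : 0 < X := by rw [hXd]; positivity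
  -- the radii
  have hm0 : (0 : ℝ) < m := by exact_mod_cast (by omega : 0 < m)
  obtain ⟨r, hrd⟩ : ∃ r : ℕ, r = P.L / (16 * m) := ⟨_, rfl⟩
  have hr1 : m * r ≤ P.L / 16 := by
    rw [hrd, ← Nat.div_div_eq_div_mul]
    exact Nat.mul_div_le _ _
  have hr2 : P.L ≤ 16 * m * (r + 1) := by
    rw [hrd]
    have h := Nat.lt_mul_div_succ P.L (by omega : 0 < 16 * m)
    exact h.le
  have hr3 : rr ≤ (r : ℝ) := by
    have h3 : (P.L : ℝ) ≤ 16 * m * ((r : ℝ) + 1) := by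
      have : ((P.L : ℕ) : ℝ) ≤ ((16 * m * (r + 1) : ℕ) : ℝ) := by exact_mod_cast hr2
      push_cast at this
      linarith
    have h4 : 16 * (m : ℝ) * (rr + 1) ≤ 16 * m * ((r : ℝ) + 1) := hLm.trans h3
    have h5 := le_of_mul_le_mul_left h4 (by positivity)
    linarith
  have hr4 : 1 ≤ r := by
    have h1 : (1 : ℝ) ≤ rr := by
      rw [hrrd]
      have : 0 ≤ 32 * A ^ 2 / (v0 * c6) := by positivity
      linarith
    exact_mod_cast h1.trans hr3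
  have hrad : ∀ i ≤ m, P.L / 8 + i * r + R < P.L / 2 := by
    intro i hi
    have h1 : i * r ≤ m * r := Nat.mul_le_mul_right _ hi
    omega
  have hlow := La_low hkin hv0d hL16 (by rw [hR1P]; exact hLdR) hv0P st hst v hv
  rw [hR1P, ← mul_assoc, ← hc6d, ← hXd] at hlow
  -- the pigeonhole
  obtain ⟨i, him, hi2⟩ := LaMain_pig
    (fun i => ∑ u ∈ QQ P st v (P.L / 8 + i * r), off P.p (occ st.H) st.x u) m
    (ENNReal.ofReal X) (by
      simp only [zero_mul, add_zero]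
      exact hlow) (by
      have h := La_up hkin (occ st.H) st.x (QQ P st v (P.L / 8 + m * r))
      refine lt_of_le_of_lt h ?_
      have e2 : (2 : ℝ≥0∞) ^ m = ENNReal.ofReal ((2 : ℝ) ^ m) := by
        rw [ENNReal.ofReal_pow (by norm_num)]
        norm_num
      rw [e2, ← ENNReal.ofReal_mul (by positivity), ENNReal.ofReal_lt_ofReal_iff (by positivity),
        hXd, ← mul_assoc]
      exact mul_lt_mul_of_pos_right hm2 (by positivity))
  obtain ⟨n, hnd⟩ : ∃ n : ℕ, n = P.L / 8 + i * r := ⟨_, rfl⟩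
  have hn1 : P.L / 8 + (i + 1) * r = n + r := by rw [hnd]; ring
  rw [← hnd, hn1] at hi2
  have hnR : n + R < P.L / 2 := by rw [hnd]; exact hrad i him.le
  have hn : n < P.L / 2 := by omega
  have hcell := good_cell hL1 hst
  have hdist : ∀ o ∈ QQ P st v n, P.L + 1 ≤ nm (o - st.x) := fun o ho =>
    (cell_dist hL1 hv hcell (QQ_sub hn ho)).1
  have hsum := LaMain_sum P hb1t st R (QQ P st v n) (fun o ho => by
    have := hdist o ho
    rw [nm_sub_comm]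
    omega)
  -- the lower bound of the sum over the cube
  have hMX : ENNReal.ofReal X ≤ ∑ u ∈ QQ P st v n, off P.p (occ st.H) st.x u := by
    refine hlow.trans (Finset.sum_le_sum_of_subset ?_)
    intro u hu
    rw [mem_QQ] at hu ⊢
    have : P.L / 8 ≤ n := by rw [hnd]; exact Nat.le_add_right _ _
    omega
  have hMt : ∑ u ∈ QQ P st v n, off P.p (occ st.H) st.x u ≠ ⊤ :=
    ne_top_of_le_ne_top ENNReal.ofReal_ne_top (La_up hkin _ _ _)
  -- the errors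
  have hNs : Ns P st R (QQ P st v n) ≤ ENNReal.ofReal (X / 16) := by
    have h := La_far hkin hΛ hv0 R hv0P hb1 st hst v hv
    rw [← hCfd] at h
    refine le_trans (Finset.sum_le_sum_of_subset (QQ_sub hn)) (h.trans ?_)
    apply ENNReal.ofReal_le_ofReal
    rw [div_le_iff₀ hc6] at hLCf
    rw [hXd]
    nlinarith
  have hE1 : Es P st (fun _ w => gro P.L (w - st.x)) P.b1 (QQ P st v n) ≤
      ENNReal.ofReal (X / 16) := by
    have h := (LaMain_E P hp0 hp1 st (fun _ w => gro P.L (w - st.x)) P.b1 (QQ P st v n)).trans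
      (La_er1 hkin (occ st.H) st.x _)
    refine (LaMain_div (b' := Λ * (P.L : ℝ) ^ 4) (by positivity) hb1.ge h).trans ?_
    apply ENNReal.ofReal_le_ofReal
    rw [div_le_iff₀ (by positivity), hXd]
    have e1 : 16 * A ^ 3 / c6 ≤ Λ := by rw [hΛd]; linarith
    rw [div_le_iff₀ hc6] at e1
    calc A ^ 3 * (P.L : ℝ) ^ 6 = (16 * A ^ 3) * ((P.L : ℝ) ^ 6 / 16) := by ring
      _ ≤ (Λ * c6) * ((P.L : ℝ) ^ 6 / 16) := mul_le_mul_of_nonneg_right e1 (by positivity)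
      _ = c6 * (P.L : ℝ) ^ 2 / 16 * (Λ * (P.L : ℝ) ^ 4) := by ring
  have hE3 : Es P st (fun _ => FK P 0 st.H) P.b3 (QQ P st v n) ≤
      ENNReal.ofReal (X / 16) := by
    have h := (LaMain_E P hp0 hp1 st (fun _ => FK P 0 st.H) P.b3 (QQ P st v n)).trans
      ((La_er3 hkin (occ st.H) st.x _ st.H).trans (mul_le_mul' le_rfl hp8))
    rw [← ENNReal.ofReal_mul (by positivity)] at h
    refine (LaMain_div (b' := β * (P.L : ℝ) ^ 4) (by positivity) hb3 h).trans ?_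
    apply ENNReal.ofReal_le_ofReal
    rw [div_le_iff₀ (by positivity), hXd, hηd]
    have e1 : A * (P.L : ℝ) ^ 2 * (β * c6 / (16 * (A + C4)) * (P.L : ℝ) ^ 4) =
        (β * c6 * (P.L : ℝ) ^ 6 / 16) * (A / (A + C4)) := by
      field_simp
    have e2 : c6 * (P.L : ℝ) ^ 2 / 16 * (β * (P.L : ℝ) ^ 4) =
        (β * c6 * (P.L : ℝ) ^ 6 / 16) * 1 := by ring
    rw [e1, e2]
    apply mul_le_mul_of_nonneg_left _ (by positivity)
    rw [div_le_one (by positivity)]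
    linarith
  have hE4 : Es P st (fun _ => F4 0 st.H) P.b4 (QQ P st v n) ≤
      ENNReal.ofReal (X / 16) := by
    have h := (LaMain_E P hp0 hp1 st (fun _ => F4 0 st.H) P.b4 (QQ P st v n)).trans
      ((La_er4 hkin (occ st.H) st.x _ st.H).trans (mul_le_mul' le_rfl hp4))
    rw [← hC4d, ← ENNReal.ofReal_mul (by positivity)] at h
    refine (LaMain_div (b' := β * (P.L : ℝ) ^ 2) (by positivity) hb4 h).trans ?_
    apply ENNReal.ofReal_le_ofReal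
    rw [div_le_iff₀ (by positivity), hXd, hηd]
    have e1 : C4 * (P.L : ℝ) ^ 2 * (β * c6 / (16 * (A + C4)) * (P.L : ℝ) ^ 2) =
        (β * c6 * (P.L : ℝ) ^ 4 / 16) * (C4 / (A + C4)) := by
      field_simp
    have e2 : c6 * (P.L : ℝ) ^ 2 / 16 * (β * (P.L : ℝ) ^ 2) =
        (β * c6 * (P.L : ℝ) ^ 4 / 16) * 1 := by ring
    rw [e1, e2]
    apply mul_le_mul_of_nonneg_left _ (by positivity)
    rw [div_le_one (by positivity)]
    linarith
  have hE2 : Es P st (fR P R) (P.v0 / 2) (QQ P st v n) ≤ ENNReal.ofReal (1 / 16) *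
      (∑ u ∈ QQ P st v (n + r), off P.p (occ st.H) st.x u + ENNReal.ofReal X) := by
    have h := (LaMain_E P hp0 hp1 st (fR P R) (P.v0 / 2) (QQ P st v n)).trans
      (La_er2 hkin (occ st.H) st.x _ (QQ P st v (n + r)) R r hR1 hr4
        (fun o ho u hu => QQ_dist ho hu))
    have e1 : P.v0 / 2 = ENNReal.ofReal (v0 / 2) := by
      rw [hv0P, ENNReal.ofReal_div_of_pos (by norm_num)]
      norm_num
    rw [e1] at h ⊢
    have hv2 : (0 : ℝ) < v0 / 2 := by positivity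
    refine LaMain_cancel hv2 (h.trans ?_)
    rw [mul_add, ← ENNReal.ofReal_mul (by positivity)]
    refine add_le_add (mul_le_mul' (ENNReal.ofReal_le_ofReal hR2) le_rfl)
      (ENNReal.ofReal_le_ofReal ?_)
    have hr0 : (0 : ℝ) < r := by exact_mod_cast hr4
    have h3 : 32 * A ^ 2 / (v0 * c6) ≤ (r : ℝ) := by
      rw [hrrd] at hr3
      linarith
    rw [div_le_iff₀ (by positivity)] at h3
    rw [div_le_iff₀ hr0, hXd]
    calc A ^ 2 * (P.L : ℝ) ^ 2 = (32 * A ^ 2) * ((P.L : ℝ) ^ 2 / 32) := by ring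
      _ ≤ (r * (v0 * c6)) * ((P.L : ℝ) ^ 2 / 32) := mul_le_mul_of_nonneg_right h3 (by positivity)
      _ = v0 / 2 * (1 / 16) * (c6 * (P.L : ℝ) ^ 2) * r := by ring
  have hG := LaMain_arith hX0.le hsum hNs hE1 hE3 hE4 hE2 hi2 hMX hMt
  have hfin := LaMain_fin P hp0 hp1 st hst v hv R n hR1 hR1P.ge hnR
  have hq : (1 - pM) ^ (d * (2 * R + 1) ^ d) ≤ (1 - P.p) ^ (d * (2 * R + 1) ^ d) :=
    pow_le_pow_left₀ (by linarith) (by linarith) _
  have hlast := LaMain_last hK hq0.le hq hG hfin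
  refine le_trans (le_of_eq ?_) hlast
  rw [hXd]
  congr 1
  ring

end CG
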